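import Mathlib

/-!
# Sets of integers with no member a multiple of k others: basic definitions and decomposition
-/

set_option autoImplicit false

namespace Pool.Agent.H96.KMF

open Finset

/-- No element of `A` is a multiple of `k` distinct other elements of `A`. -/
def KMultipleFree (k : ℕ) (A : Finset ℕ) : Prop :=
  ∀ a ∈ A, ∀ B ⊆ A.erase a, (∀ b ∈ B, b ∣ a) → B.card ≠ k

open Classical in
/-- `gk k n` is the largest size of a `k`-multiple-free subset of `{1, ..., n}`. -/
noncomputable def gk (k n : ℕ) : ℕ :=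
  ((Finset.Icc 1 n).powerset.filter (KMultipleFree k)).sup Finset.card

open Classical in
/-- the largest size of a `k`-multiple-free subset of a finite set `S`. -/
noncomputable def opt (k : ℕ) (S : Finset ℕ) : ℕ :=
  (S.powerset.filter (KMultipleFree k)).sup Finset.card

lemma gk_eq_opt (k n : ℕ) : gk k n = opt k (Finset.Icc 1 n) := rfl

lemma kmf_iff (k : ℕ) (A : Finset ℕ) :
    KMultipleFree k A ↔ ∀ a ∈ A, (A.filter (fun b => b ∣ a ∧ b ≠ a)).card < k := by
  constructor
  · intro h a ha
    by_contra hcon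
    push Not at hcon
    obtain ⟨B, hB, hBc⟩ := Finset.exists_subset_card_eq hcon
    refine h a ha B ?_ ?_ hBc
    · intro b hb
      have := hB hb
      rw [Finset.mem_filter] at this
      rw [Finset.mem_erase]
      exact ⟨this.2.2, this.1⟩
    · intro b hb
      have := hB hb
      rw [Finset.mem_filter] at this
      exact this.2.1
  · intro h a ha B hB hd hc
    have h1 : B ⊆ A.filter (fun b => b ∣ a ∧ b ≠ a) := by
      intro b hb
      have := hB hb
      rw [Finset.mem_erase] at this
      rw [Finset.mem_filter]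
      exact ⟨this.2, hd b hb, this.1⟩
    have := Finset.card_le_card h1
    have := h a ha
    omega

lemma kmf_empty (k : ℕ) : KMultipleFree k ∅ := by
  intro a ha; simp at ha

lemma KMultipleFree.subset {k : ℕ} {A B : Finset ℕ} (hA : KMultipleFree k A) (h : B ⊆ A) :
    KMultipleFree k B := by
  intro a ha C hC hd
  exact hA a (h ha) C (hC.trans (Finset.erase_subset_erase a h)) hd

lemma le_opt {k : ℕ} {S A : Finset ℕ} (hAS : A ⊆ S) (hA : KMultipleFree k A) :
    A.card ≤ opt k S := by
  classical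
  unfold opt
  exact Finset.le_sup (f := Finset.card) (by
    rw [Finset.mem_filter, Finset.mem_powerset]; exact ⟨hAS, hA⟩)

lemma exists_opt (k : ℕ) (S : Finset ℕ) :
    ∃ A ⊆ S, KMultipleFree k A ∧ A.card = opt k S := by
  classical
  have hne : (S.powerset.filter (KMultipleFree k)).Nonempty :=
    ⟨∅, by rw [Finset.mem_filter, Finset.mem_powerset]; exact ⟨Finset.empty_subset _, kmf_empty k⟩⟩
  obtain ⟨A, hA, hAc⟩ := Finset.exists_mem_eq_sup _ hne Finset.card
  rw [Finset.mem_filter, Finset.mem_powerset] at hA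
  refine ⟨A, hA.1, hA.2, ?_⟩
  unfold opt
  rw [hAc]

lemma opt_le_card (k : ℕ) (S : Finset ℕ) : opt k S ≤ S.card := by
  obtain ⟨A, hA, _, hc⟩ := exists_opt k S
  rw [← hc]; exact Finset.card_le_card hA

lemma opt_mono (k : ℕ) {S T : Finset ℕ} (h : S ⊆ T) : opt k S ≤ opt k T := by
  obtain ⟨A, hA, hf, hc⟩ := exists_opt k S
  rw [← hc]; exact le_opt (hA.trans h) hf

/-- `s` is composed of primes dividing `P`. -/
def Smo (P s : ℕ) : Prop := s ≠ 0 ∧ ∀ p, p.Prime → p ∣ s → p ∣ P

lemma Smo.coprime {P s m : ℕ} (hs : Smo P s) (hm : Nat.Coprime P m) : Nat.Coprime s m := by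
  rw [Nat.coprime_iff_gcd_eq_one]
  by_contra h
  obtain ⟨p, hp, hd⟩ := Nat.exists_prime_and_dvd h
  have h1 := hs.2 p hp (hd.trans (Nat.gcd_dvd_left _ _))
  have h2 := hd.trans (Nat.gcd_dvd_right s m)
  exact hp.one_lt.ne' (Nat.eq_one_of_dvd_coprimes hm h1 h2)

lemma Smo.mul {P s t : ℕ} (hs : Smo P s) (ht : Smo P t) : Smo P (s * t) := by
  refine ⟨mul_ne_zero hs.1 ht.1, fun p hp hd => ?_⟩
  rcases (Nat.Prime.dvd_mul hp).mp hd with h | h
  · exact hs.2 p hp h
  · exact ht.2 p hp h

lemma Smo.of_dvd {P s t : ℕ} (hs : Smo P s) (h : t ∣ s) : Smo P t :=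
  ⟨fun h0 => hs.1 (by rw [h0] at h; exact Nat.eq_zero_of_zero_dvd h),
    fun p hp hd => hs.2 p hp (hd.trans h)⟩

lemma smo_one (P : ℕ) : Smo P 1 :=
  ⟨one_ne_zero, fun _ hp hd => absurd (Nat.eq_one_of_dvd_one hd) hp.one_lt.ne'⟩

lemma exists_decomp (P a : ℕ) (ha : a ≠ 0) :
    ∃ m s, Nat.Coprime P m ∧ Smo P s ∧ a = m * s := by
  induction a using Nat.strong_induction_on with
  | _ a ih =>
    by_cases hc : Nat.Coprime P a
    · exact ⟨a, 1, hc, smo_one P, by ring⟩
    · obtain ⟨p, hp, hpP, hpa⟩ := Nat.Prime.not_coprime_iff_dvd.mp hc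
      obtain ⟨b, rfl⟩ := hpa
      have hb : b ≠ 0 := by rintro rfl; simp at ha
      obtain ⟨m, s, hm, hs, rfl⟩ := ih b (by
        have := hp.one_lt
        nlinarith [Nat.pos_of_ne_zero hb]) hb
      refine ⟨m, p * s, hm, ?_, by ring⟩
      refine Smo.mul ⟨hp.ne_zero, fun q hq hd => ?_⟩ hs
      rw [(Nat.prime_dvd_prime_iff_eq hq hp).mp hd]; exact hpP

lemma decomp_unique {P m m' s s' : ℕ} (hm : Nat.Coprime P m) (hm' : Nat.Coprime P m')
    (hs : Smo P s) (hs' : Smo P s') (h : m * s = m' * s') : m = m' ∧ s = s' := by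
  have h1 : s ∣ s' := by
    have : s ∣ m' * s' := ⟨m, by rw [← h]; ring⟩
    exact (hs.coprime hm').dvd_of_dvd_mul_left this
  have h2 : s' ∣ s := by
    have : s' ∣ m * s := ⟨m', by rw [h]; ring⟩
    exact (hs'.coprime hm).dvd_of_dvd_mul_left this
  have h3 := Nat.dvd_antisymm h1 h2
  subst h3
  refine ⟨?_, rfl⟩
  exact Nat.eq_of_mul_eq_mul_right (Nat.pos_of_ne_zero hs.1) h

open Classical in
/-- the smooth numbers `s` with `j / M < s ≤ j`. -/
noncomputable def cell (P M j : ℕ) : Finset ℕ :=
  (Finset.Icc 1 j).filter (fun s => Smo P s ∧ j < s * M)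

lemma mem_cell {P M j s : ℕ} : s ∈ cell P M j ↔ (1 ≤ s ∧ s ≤ j) ∧ Smo P s ∧ j < s * M := by
  classical
  unfold cell
  rw [Finset.mem_filter, Finset.mem_Icc]

/-- the numbers `m ≤ n` coprime to `P`. -/
def rgh (P n : ℕ) : Finset ℕ := (Finset.Icc 1 n).filter (fun m => Nat.Coprime P m)

lemma mem_rgh {P n m : ℕ} : m ∈ rgh P n ↔ (1 ≤ m ∧ m ≤ n) ∧ Nat.Coprime P m := by
  unfold rgh
  rw [Finset.mem_filter, Finset.mem_Icc]

/-- the main sum -/
noncomputable def GG (k P M n : ℕ) : ℕ := ∑ m ∈ rgh P n, opt k (cell P M (n / m))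

lemma cell_bounds {P M n m s : ℕ} (hm : 1 ≤ m) (hs : s ∈ cell P M (n / m)) :
    m * s ≤ n ∧ n < m * s * M := by
  rw [mem_cell] at hs
  obtain ⟨⟨_, h2⟩, _, h3⟩ := hs
  constructor
  · calc m * s ≤ m * (n / m) := Nat.mul_le_mul_left _ h2
      _ ≤ n := Nat.mul_div_le _ _
  · rw [Nat.div_lt_iff_lt_mul (by omega)] at h3
    calc n < s * M * m := h3
      _ = m * s * M := by ring

lemma mem_cell_of {P M n m s : ℕ} (hm : 1 ≤ m) (hs : Smo P s) (h1 : m * s ≤ n)
    (h2 : n < m * s * M) : s ∈ cell P M (n / m) := by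
  rw [mem_cell]
  refine ⟨⟨Nat.pos_of_ne_zero hs.1, ?_⟩, hs, ?_⟩
  · rw [Nat.le_div_iff_mul_le (by omega)]
    calc s * m = m * s := by ring
      _ ≤ n := h1
  · rw [Nat.div_lt_iff_lt_mul (by omega)]
    calc n < m * s * M := h2
      _ = s * M * m := by ring

/-- Lower bound: gluing optimal sets of the classes. `P` is divisible by all primes `< M`. -/
lemma GG_le_gk (k P M n : ℕ) (hP : ∀ p, p.Prime → p < M → p ∣ P) : GG k P M n ≤ gk k n := by
  classical
  choose A hAS hAf hAc using fun j => exists_opt k (cell P M j)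
  set U : Finset ℕ := (rgh P n).biUnion (fun m => (A (n / m)).image (fun s => m * s)) with hU
  have hmemU : ∀ a, a ∈ U ↔ ∃ m ∈ rgh P n, ∃ s ∈ A (n / m), m * s = a := by
    intro a; rw [hU]; simp
  have hcard : U.card = GG k P M n := by
    rw [hU, Finset.card_biUnion]
    · unfold GG
      refine Finset.sum_congr rfl fun m hm => ?_
      rw [Finset.card_image_of_injOn, hAc]
      intro s _ t _ hst
      rw [mem_rgh] at hm
      exact Nat.eq_of_mul_eq_mul_left (by omega) hst
    · intro m hm m' hm' hne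
      rw [Function.onFun, Finset.disjoint_left]
      intro a ha ha'
      rw [Finset.mem_image] at ha ha'
      obtain ⟨s, hs, rfl⟩ := ha
      obtain ⟨s', hs', he⟩ := ha'
      rw [Finset.mem_coe, mem_rgh] at hm hm'
      have h1 := (mem_cell.mp (hAS _ hs)).2.1
      have h2 := (mem_cell.mp (hAS _ hs')).2.1
      exact hne (decomp_unique hm'.2 hm.2 h2 h1 he).1.symm
  rw [← hcard, gk_eq_opt]
  apply le_opt
  · intro a ha
    rw [hmemU] at ha
    obtain ⟨m, hm, s, hs, rfl⟩ := ha
    rw [mem_rgh] at hm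
    have hc := hAS _ hs
    have hb := cell_bounds hm.1.1 hc
    rw [mem_cell] at hc
    rw [Finset.mem_Icc]
    exact ⟨Nat.mul_pos (by omega) hc.1.1, hb.1⟩
  · rw [kmf_iff]
    intro a ha
    rw [hmemU] at ha
    obtain ⟨m, hm, s, hs, rfl⟩ := ha
    have hm' := mem_rgh.mp hm
    have hfree := (kmf_iff k _).mp (hAf (n / m)) s hs
    refine lt_of_le_of_lt ?_ hfree
    -- the divisors of `m * s` in `U` are `m * t`, `t` a divisor of `s` in `A (n / m)`
    have hsub : U.filter (fun b => b ∣ m * s ∧ b ≠ m * s) ⊆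
        ((A (n / m)).filter (fun b => b ∣ s ∧ b ≠ s)).image (fun t => m * t) := by
      intro b hb
      rw [Finset.mem_filter, hmemU] at hb
      obtain ⟨⟨m₁, hm₁, t, ht, rfl⟩, hd, hne⟩ := hb
      have hm₁' := mem_rgh.mp hm₁
      have hcs := hAS _ hs
      have hct := hAS _ ht
      have bs := cell_bounds hm'.1.1 hcs
      have bt := cell_bounds hm₁'.1.1 hct
      have hss := (mem_cell.mp hcs).2.1
      have hts := (mem_cell.mp hct).2.1
      obtain ⟨q, hq⟩ := hd
      have hq0 : q ≠ 0 := by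
        rintro rfl
        rw [mul_zero] at hq
        have := Nat.mul_pos hm'.1.1 (Nat.pos_of_ne_zero hss.1)
        omega
      have hqM : q < M := by
        have h1 : m₁ * t * q < m₁ * t * M := by
          rw [← hq]; exact lt_of_le_of_lt bs.1 bt.2
        exact lt_of_mul_lt_mul_left h1 (Nat.zero_le _)
      have hqs : Smo P q := ⟨hq0, fun p hp hd => hP p hp (lt_of_le_of_lt (Nat.le_of_dvd
        (Nat.pos_of_ne_zero hq0) hd) hqM)⟩
      have hu := decomp_unique hm'.2 hm₁'.2 hss (hts.mul hqs) (by rw [hq]; ring)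
      obtain ⟨rfl, hst⟩ := hu
      rw [Finset.mem_image]
      refine ⟨t, ?_, rfl⟩
      rw [Finset.mem_filter]
      refine ⟨ht, ⟨q, hst⟩, ?_⟩
      rintro rfl
      exact hne rfl
    refine (Finset.card_le_card hsub).trans Finset.card_image_le

/-- Upper bound. -/
lemma gk_le_GG (k P M n : ℕ) (hM : 1 ≤ M) : gk k n ≤ GG k P M n + n / M := by
  classical
  obtain ⟨A, hA, hAf, hAc⟩ := exists_opt k (Finset.Icc 1 n)
  rw [gk_eq_opt, ← hAc]
  -- split into large and small elements
  have hsplit : A.card = (A.filter (fun a => n < a * M)).card +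
      (A.filter (fun a => ¬ n < a * M)).card :=
    (Finset.card_filter_add_card_filter_not (s := A) (fun a => n < a * M)).symm
  have hsmall : (A.filter (fun a => ¬ n < a * M)).card ≤ n / M := by
    have : A.filter (fun a => ¬ n < a * M) ⊆ Finset.Icc 1 (n / M) := by
      intro a ha
      rw [Finset.mem_filter] at ha
      have h1 := hA ha.1
      rw [Finset.mem_Icc] at h1 ⊢
      refine ⟨h1.1, ?_⟩
      rw [Nat.le_div_iff_mul_le (by omega)]
      omega
    calc _ ≤ (Finset.Icc 1 (n / M)).card := Finset.card_le_card this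
      _ = n / M := by simp
  have hlarge : (A.filter (fun a => n < a * M)).card ≤ GG k P M n := by
    set L := A.filter (fun a => n < a * M) with hL
    have hLf : KMultipleFree k L := hAf.subset (Finset.filter_subset _ _)
    set F : ℕ → Finset ℕ := fun m => (cell P M (n / m)).filter (fun s => m * s ∈ L) with hF
    have hcover : L ⊆ (rgh P n).biUnion (fun m => (F m).image (fun s => m * s)) := by
      intro a ha
      have ha' := ha
      rw [hL, Finset.mem_filter] at ha'
      have h1 := hA ha'.1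
      rw [Finset.mem_Icc] at h1
      obtain ⟨m, s, hm, hs, rfl⟩ := exists_decomp P a (by omega)
      have hm1 : 1 ≤ m := by
        rcases Nat.eq_zero_or_pos m with h | h
        · rw [h, zero_mul] at h1; omega
        · exact h
      have hs1 : 1 ≤ s := Nat.pos_of_ne_zero hs.1
      rw [Finset.mem_biUnion]
      refine ⟨m, ?_, ?_⟩
      · rw [mem_rgh]
        refine ⟨⟨hm1, le_trans (Nat.le_mul_of_pos_right m hs1) h1.2⟩, hm⟩
      · rw [Finset.mem_image]
        refine ⟨s, ?_, rfl⟩
        rw [hF, Finset.mem_filter]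
        exact ⟨mem_cell_of hm1 hs h1.2 ha'.2, ha⟩
    calc L.card ≤ _ := Finset.card_le_card hcover
      _ ≤ ∑ m ∈ rgh P n, ((F m).image (fun s => m * s)).card := Finset.card_biUnion_le
      _ ≤ ∑ m ∈ rgh P n, opt k (cell P M (n / m)) := by
          refine Finset.sum_le_sum fun m hm => ?_
          have hm1 := (mem_rgh.mp hm).1.1
          refine Finset.card_image_le.trans (le_opt (Finset.filter_subset _ _) ?_)
          -- `F m` is `k`-multiple-free
          rw [kmf_iff]
          intro s hs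
          rw [hF, Finset.mem_filter] at hs
          have h2 := (kmf_iff k L).mp hLf (m * s) hs.2
          refine lt_of_le_of_lt ?_ h2
          have hinj : Function.Injective (fun t : ℕ => m * t) := fun x y h =>
            Nat.eq_of_mul_eq_mul_left (by omega) h
          rw [← Finset.card_image_of_injective _ hinj]
          apply Finset.card_le_card
          intro b hb
          rw [Finset.mem_image] at hb
          obtain ⟨t, ht, rfl⟩ := hb
          rw [Finset.mem_filter] at ht ⊢
          have ht1 := ht.1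
          rw [hF, Finset.mem_filter] at ht1
          refine ⟨ht1.2, Nat.mul_dvd_mul_left m ht.2.1, ?_⟩
          intro h
          exact ht.2.2 (hinj h)
  omega

end Pool.Agent.H96.KMF
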