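import Pool.Agent.H96.KMF.Jordan

/-!
# Estimates for `w_p = (1 - p^{-σ})^{-1/σ}` with `σ = log 2 / log y`
-/

set_option autoImplicit false

namespace Pool.Agent.H96.KMF

open Finset Filter Topology

section local_bounds

variable {y : ℝ} {p : ℕ}

lemma y_rpow (hy : 1 < y) : y ^ (Real.log 2 / Real.log y) = 2 := by
  have hΛ : 0 < Real.log y := Real.log_pos hy
  rw [Real.rpow_def_of_pos (by linarith), mul_div_cancel₀ _ hΛ.ne', Real.exp_log (by norm_num)]

lemma two_rpow_inv (hy : 1 < y) : (2 : ℝ) ^ (1 / (Real.log 2 / Real.log y)) = y := by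
  have hΛ : 0 < Real.log y := Real.log_pos hy
  have hl2 : 0 < Real.log 2 := Real.log_pos (by norm_num)
  rw [Real.rpow_def_of_pos (by norm_num), one_div_div, mul_div_cancel₀ _ hl2.ne',
    Real.exp_log (by linarith)]

lemma ww_eq (y : ℝ) (p : ℕ) :
    ww (Real.log 2 / Real.log y) p =
      (1 - ((p : ℝ) ^ (Real.log 2 / Real.log y))⁻¹) ^ (-(1 / (Real.log 2 / Real.log y))) := by
  unfold ww
  rw [Real.rpow_neg (Nat.cast_nonneg p)]

/-- general comparison: if `1 - 1/u ≥ A u^B` with `u = p^σ` then `w_p ≤ A^{-1/σ} p^{-B}`. -/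
lemma ww_le_of (hy : 1 < y) (hp : 1 < p) {A B : ℝ} (hA : 0 < A)
    (h : A * ((p : ℝ) ^ (Real.log 2 / Real.log y)) ^ B ≤
      1 - ((p : ℝ) ^ (Real.log 2 / Real.log y))⁻¹) :
    ww (Real.log 2 / Real.log y) p ≤
      A ^ (-(1 / (Real.log 2 / Real.log y))) * (p : ℝ) ^ (-B) := by
  have hΛ : 0 < Real.log y := Real.log_pos hy
  have hl2 : 0 < Real.log 2 := Real.log_pos (by norm_num)
  have hσ : 0 < Real.log 2 / Real.log y := by positivity
  have hpr : (0 : ℝ) < p := by exact_mod_cast (by omega : 0 < p)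
  rw [ww_eq y p]
  have hu : 0 < (p : ℝ) ^ (Real.log 2 / Real.log y) := Real.rpow_pos_of_pos hpr _
  have hneg : -(1 / (Real.log 2 / Real.log y)) ≤ 0 := by
    have : 0 < 1 / (Real.log 2 / Real.log y) := by positivity
    linarith
  have h1 : 0 < A * ((p : ℝ) ^ (Real.log 2 / Real.log y)) ^ B := by positivity
  refine (Real.rpow_le_rpow_of_nonpos h1 h hneg).trans (le_of_eq ?_)
  rw [Real.mul_rpow hA.le (by positivity), ← Real.rpow_mul hu.le, ← Real.rpow_mul hpr.le]
  congr 2
  field_simp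

lemma u_mono (hy : 1 < y) {a b : ℝ} (ha : 0 ≤ a) (h : a ≤ b) :
    a ^ (Real.log 2 / Real.log y) ≤ b ^ (Real.log 2 / Real.log y) := by
  have hΛ : 0 < Real.log y := Real.log_pos hy
  have hl2 : 0 < Real.log 2 := Real.log_pos (by norm_num)
  exact Real.rpow_le_rpow ha h (by positivity)

/-- region 1 -/
lemma ww_region1 (hy : Real.exp 1 ≤ y) (hp : 1 < p) :
    ww (Real.log 2 / Real.log y) p ≤ Real.exp (7 * Real.log y ^ 2) := by
  have hy1 : 1 < y := lt_of_lt_of_le (by
    have := Real.add_one_lt_exp (one_ne_zero); linarith) hy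
  have hΛ1 : 1 ≤ Real.log y := by
    rw [Real.le_log_iff_exp_le (by linarith)]; exact hy
  have hΛ : 0 < Real.log y := by linarith
  have hl2 : 0 < Real.log 2 := Real.log_pos (by norm_num)
  set Λ := Real.log y with hΛdef
  set σ := Real.log 2 / Λ with hσdef
  have hσ : 0 < σ := by positivity
  have hpr : (2 : ℝ) ≤ p := by exact_mod_cast hp
  set t := σ * Real.log 2 with ht
  have ht0 : 0 < t := by positivity
  have hl2' : Real.log 2 < 0.6931471808 := Real.log_two_lt_d9
  have hl2'' : 0.6931471803 < Real.log 2 := Real.log_two_gt_d9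
  have ht1 : t ≤ 1 := by
    rw [ht, hσdef, div_mul_eq_mul_div, div_le_one hΛ]
    nlinarith
  have h1 : (p : ℝ) ^ (-σ) ≤ 1 / (1 + t) := by
    have e1 : (p : ℝ) ^ (-σ) ≤ (2 : ℝ) ^ (-σ) :=
      Real.rpow_le_rpow_of_nonpos (by norm_num) hpr (by linarith)
    have e2 : (2 : ℝ) ^ (-σ) = Real.exp (-t) := by
      rw [Real.rpow_def_of_pos (by norm_num), ht]; congr 1; ring
    rw [e2] at e1
    refine e1.trans ?_
    rw [Real.exp_neg, inv_eq_one_div]
    apply one_div_le_one_div_of_le (by linarith)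
    linarith [Real.add_one_le_exp t]
  have h2 : t / 2 ≤ 1 - (p : ℝ) ^ (-σ) := by
    have : t / 2 ≤ 1 - 1 / (1 + t) := by
      rw [le_sub_iff_add_le, ← le_sub_iff_add_le', div_le_iff₀ (by linarith)]
      nlinarith
    linarith
  unfold ww
  have hneg : -(1 / σ) ≤ 0 := by
    have : 0 < 1 / σ := by positivity
    linarith
  refine (Real.rpow_le_rpow_of_nonpos (by positivity) h2 hneg).trans ?_
  rw [Real.rpow_def_of_pos (by positivity)]
  apply Real.exp_le_exp.mpr
  have h3 : -Real.log (t / 2) ≤ 2 / t := by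
    rw [← Real.log_inv, inv_div]
    exact (Real.log_le_sub_one_of_pos (by positivity)).trans (by linarith)
  calc Real.log (t / 2) * -(1 / σ) = (-Real.log (t / 2)) * (1 / σ) := by ring
    _ ≤ 2 / t * (1 / σ) := mul_le_mul_of_nonneg_right h3 (by positivity)
    _ = 2 / (Real.log 2) ^ 3 * Λ ^ 2 := by
        rw [ht, hσdef]; field_simp
    _ ≤ 7 * Λ ^ 2 := by
        apply mul_le_mul_of_nonneg_right _ (by positivity)
        rw [div_le_iff₀ (by positivity)]
        have : (0.6931471803 : ℝ) ^ 3 ≤ (Real.log 2) ^ 3 :=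
          pow_le_pow_left₀ (by norm_num) hl2''.le 3
        norm_num at this ⊢
        linarith

/-- region 2 -/
lemma ww_region2 (hy : 1 < y) (hp : 1 < p) (h1 : y ≤ (p : ℝ) ^ 2) (h2 : (p : ℝ) ≤ y) :
    ww (Real.log 2 / Real.log y) p ≤ y ^ 3 / (p : ℝ) ^ 2 := by
  have hpr : (0 : ℝ) < p := by exact_mod_cast (by omega : 0 < p)
  set u := (p : ℝ) ^ (Real.log 2 / Real.log y) with hu
  have hu0 : 0 < u := Real.rpow_pos_of_pos hpr _
  have hu2 : u ≤ 2 := by
    have e := u_mono hy hpr.le h2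
    rw [y_rpow hy] at e; exact e
  have hu1 : 2 ≤ u ^ 2 := by
    have e1 := u_mono hy (by linarith) h1
    rw [y_rpow hy] at e1
    calc (2 : ℝ) ≤ ((p : ℝ) ^ 2) ^ (Real.log 2 / Real.log y) := e1
      _ = u ^ 2 := by
        rw [hu, ← Real.rpow_natCast, ← Real.rpow_natCast, ← Real.rpow_mul hpr.le,
          ← Real.rpow_mul hpr.le, mul_comm]
  have hu3 : 1.4 ≤ u := by nlinarith
  have h3 := ww_le_of (A := 1 / 8) (B := 2) hy hp (by norm_num) (by
    rw [← hu, le_sub_iff_add_le, ← le_sub_iff_add_le', inv_le_iff_one_le_mul₀ hu0]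
    rw [show (2 : ℝ) = ((2 : ℕ) : ℝ) by norm_num, Real.rpow_natCast]
    nlinarith [mul_nonneg (sub_nonneg.mpr hu2) (by nlinarith : (0 : ℝ) ≤ u ^ 2 + 2 * u - 4)])
  refine h3.trans (le_of_eq ?_)
  rw [show (1 / 8 : ℝ) = (2 : ℝ) ^ (-3 : ℝ) by
    rw [Real.rpow_neg (by norm_num)]; norm_num]
  rw [← Real.rpow_mul (by norm_num), show (-3 : ℝ) * -(1 / (Real.log 2 / Real.log y)) =
    (1 / (Real.log 2 / Real.log y)) * 3 by ring, Real.rpow_mul (by norm_num), two_rpow_inv hy,
    Real.rpow_neg hpr.le]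
  rw [show (3 : ℝ) = ((3 : ℕ) : ℝ) by norm_num, show (2 : ℝ) = ((2 : ℕ) : ℝ) by norm_num,
    Real.rpow_natCast, Real.rpow_natCast]
  rfl

/-- region 3 -/
lemma ww_region3 (hy : 1 < y) (hp : 1 < p) (h1 : y ≤ p) (h2 : (p : ℝ) ≤ y ^ 2) :
    ww (Real.log 2 / Real.log y) p ≤ y ^ (3 / 2 : ℝ) * (p : ℝ) ^ (-(1 / 2) : ℝ) := by
  have hpr : (0 : ℝ) < p := by exact_mod_cast (by omega : 0 < p)
  set u := (p : ℝ) ^ (Real.log 2 / Real.log y) with hu
  have hu0 : 0 < u := Real.rpow_pos_of_pos hpr _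
  have hu1 : 2 ≤ u := by
    have e := u_mono hy (by linarith) h1
    rw [y_rpow hy] at e; exact e
  have hu2 : u ≤ 4 := by
    have e1 := u_mono hy hpr.le h2
    have e2 : (y ^ 2) ^ (Real.log 2 / Real.log y) = 4 := by
      rw [← Real.rpow_natCast, ← Real.rpow_mul (by linarith), mul_comm,
        Real.rpow_mul (by linarith), y_rpow hy]
      norm_num
    rw [e2] at e1; exact e1
  have hA : 0 < (2 : ℝ) ^ (-(3 / 2) : ℝ) := by positivity
  have hkey : (2 : ℝ) ^ (-(3 / 2) : ℝ) * u ^ (1 / 2 : ℝ) ≤ 1 - u⁻¹ := by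
    -- put `u = 2 a ^ 2`
    set a := Real.sqrt (u / 2) with ha
    have ha2 : a ^ 2 = u / 2 := Real.sq_sqrt (by positivity)
    have ha0 : 0 ≤ a := Real.sqrt_nonneg _
    have ha1 : 1 ≤ a := Real.one_le_sqrt.mpr (by linarith)
    have ha3 : a ^ 2 ≤ 2 := by rw [ha2]; linarith
    have ha4 : a ≤ 1.5 := by nlinarith
    have e3 : (2 : ℝ) ^ (-(3 / 2) : ℝ) * u ^ (1 / 2 : ℝ) = a / 2 := by
      rw [← Real.sqrt_eq_rpow]
      have e4 : Real.sqrt u = Real.sqrt 2 * a := by
        rw [ha, ← Real.sqrt_mul (by norm_num)]; congr 1; ring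
      have e5 : (2 : ℝ) ^ (-(3 / 2) : ℝ) * Real.sqrt 2 = 1 / 2 := by
        rw [Real.sqrt_eq_rpow, ← Real.rpow_add (by norm_num)]
        norm_num
      rw [e4, ← mul_assoc, e5]; ring
    rw [e3]
    have e6 : u = 2 * a ^ 2 := by rw [ha2]; ring
    rw [e6, le_sub_iff_add_le, ← le_sub_iff_add_le', inv_le_iff_one_le_mul₀ (by positivity)]
    nlinarith [mul_nonneg (sub_nonneg.mpr ha1) (by nlinarith : (0 : ℝ) ≤ 1 + a - a ^ 2)]
  have h3 := ww_le_of (A := (2 : ℝ) ^ (-(3 / 2) : ℝ)) (B := 1 / 2) hy hp hA (by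
    rw [← hu]; exact hkey)
  refine h3.trans (le_of_eq ?_)
  rw [← Real.rpow_mul (by norm_num), show (-(3 / 2) : ℝ) * -(1 / (Real.log 2 / Real.log y)) =
    (1 / (Real.log 2 / Real.log y)) * (3 / 2) by ring, Real.rpow_mul (by norm_num),
    two_rpow_inv hy]

/-- region 4 -/
lemma ww_region4 (hy : 1 < y) (hp : 1 < p) (h1 : y ^ 2 ≤ p) :
    ww (Real.log 2 / Real.log y) p - 1 ≤
      2 * Real.log y * Real.sqrt y * (p : ℝ) ^ (-(Real.log 2 / Real.log y)) := by
  have hΛ : 0 < Real.log y := Real.log_pos hy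
  have hl2 : 0 < Real.log 2 := Real.log_pos (by norm_num)
  have hl2'' : 0.6931471803 < Real.log 2 := Real.log_two_gt_d9
  have hpr : (0 : ℝ) < p := by exact_mod_cast (by omega : 0 < p)
  set Λ := Real.log y with hΛdef
  set σ := Real.log 2 / Λ with hσdef
  have hσ : 0 < σ := by positivity
  set q := (p : ℝ) ^ (-σ) with hq
  have hq0 : 0 < q := Real.rpow_pos_of_pos hpr _
  have hq4 : q ≤ 1 / 4 := by
    have e1 := u_mono hy (by positivity) h1
    have e2 : (y ^ 2) ^ (Real.log 2 / Real.log y) = 4 := by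
      rw [← Real.rpow_natCast, ← Real.rpow_mul (by linarith), mul_comm,
        Real.rpow_mul (by linarith), y_rpow hy]
      norm_num
    rw [e2] at e1
    rw [hq, Real.rpow_neg hpr.le, inv_eq_one_div]
    exact one_div_le_one_div_of_le (by norm_num) e1
  have h3 : ww σ p = Real.exp (-(1 / σ) * Real.log (1 - q)) := by
    unfold ww
    rw [← hq, Real.rpow_def_of_pos (by linarith), mul_comm]
  have h4 : -Real.log (1 - q) ≤ 4 / 3 * q := by
    have e1 : -Real.log (1 - q) = Real.log (1 / (1 - q)) := by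
      rw [one_div, Real.log_inv]
    rw [e1]
    refine (Real.log_le_sub_one_of_pos (by
      have : 0 < 1 - q := by linarith
      positivity)).trans ?_
    rw [sub_le_iff_le_add, div_le_iff₀ (by linarith)]
    nlinarith
  set x := -(1 / σ) * Real.log (1 - q) with hx
  have h5 : x ≤ 2 * Λ * q := by
    have e1 : x = (-Real.log (1 - q)) * (1 / σ) := by rw [hx]; ring
    rw [e1]
    calc (-Real.log (1 - q)) * (1 / σ) ≤ 4 / 3 * q * (1 / σ) :=
          mul_le_mul_of_nonneg_right h4 (by positivity)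
      _ = (4 / (3 * Real.log 2)) * Λ * q := by rw [hσdef]; field_simp
      _ ≤ 2 * Λ * q := by
          apply mul_le_mul_of_nonneg_right _ hq0.le
          apply mul_le_mul_of_nonneg_right _ hΛ.le
          rw [div_le_iff₀ (by positivity)]
          linarith
  have h6 : x ≤ Λ / 2 := by
    calc x ≤ 2 * Λ * q := h5
      _ ≤ 2 * Λ * (1 / 4) := mul_le_mul_of_nonneg_left hq4 (by positivity)
      _ = Λ / 2 := by ring
  have hx0 : 0 ≤ x := by
    have e1 : Real.log (1 - q) ≤ 0 := Real.log_nonpos (by linarith) (by linarith)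
    rw [hx]
    have : 0 < 1 / σ := by positivity
    nlinarith
  have h7 : Real.exp x - 1 ≤ x * Real.exp x := by
    have e1 := Real.add_one_le_exp (-x)
    have e2 : Real.exp (-x) * Real.exp x = 1 := by rw [← Real.exp_add]; simp
    have e3 : (-x + 1) * Real.exp x ≤ 1 :=
      calc (-x + 1) * Real.exp x ≤ Real.exp (-x) * Real.exp x :=
            mul_le_mul_of_nonneg_right e1 (Real.exp_pos _).le
        _ = 1 := e2
    nlinarith
  have h8 : Real.exp x ≤ Real.sqrt y := by
    have e1 : Real.sqrt y = Real.exp (Λ / 2) := by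
      rw [Real.sqrt_eq_rpow, Real.rpow_def_of_pos (by linarith)]
      congr 1; ring
    rw [e1]; exact Real.exp_le_exp.mpr h6
  rw [h3]
  calc Real.exp x - 1 ≤ x * Real.exp x := h7
    _ ≤ (2 * Λ * q) * Real.sqrt y := mul_le_mul h5 h8 (Real.exp_pos _).le (by positivity)
    _ = _ := by ring

end local_bounds

/-- the bound for the logarithm of an Euler factor. -/
noncomputable def bb (y : ℝ) (p : ℕ) : ℝ :=
  (if (p : ℝ) ^ 2 < y then 7 * Real.log y ^ 2 else 0) +
  (if (p : ℝ) ≤ y then Real.log 2 + 3 * Real.log (y / p) else 0) +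
  (if y < (p : ℝ) ∧ (p : ℝ) ≤ y ^ 2 then (y / p) ^ (3 / 2 : ℝ) else 0) +
  2 * Real.log y * Real.sqrt y * (p : ℝ) ^ (-1 - (Real.log 2 / Real.log y))

lemma factor_le {y : ℝ} (hy : Real.exp 1 ≤ y) {p : ℕ} (hp : 1 < p) :
    1 + (ww (Real.log 2 / Real.log y) p - 1) / p ≤ Real.exp (bb y p) := by
  have hy1 : 1 < y := lt_of_lt_of_le (by
    have := Real.add_one_lt_exp (one_ne_zero); linarith) hy
  have hΛ : 0 < Real.log y := Real.log_pos hy1
  have hl2 : 0 < Real.log 2 := Real.log_pos (by norm_num)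
  have hσ : 0 < Real.log 2 / Real.log y := by positivity
  have hpr1 : (1 : ℝ) < p := by exact_mod_cast hp
  have hpr : (0 : ℝ) < p := by linarith
  have hw := ww_one_le hσ hp
  have hlast : 0 ≤ 2 * Real.log y * Real.sqrt y * (p : ℝ) ^ (-1 - (Real.log 2 / Real.log y)) := by
    positivity
  unfold bb
  set W := ww (Real.log 2 / Real.log y) p with hW
  by_cases c1 : (p : ℝ) ^ 2 < y
  · have hple : (p : ℝ) ≤ y := by nlinarith
    rw [if_pos c1, if_pos hple, if_neg (by intro h; linarith [h.1])]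
    have h1 := ww_region1 hy hp
    rw [← hW] at h1
    have h2 : 1 + (W - 1) / p ≤ W := by
      have : (W - 1) / p ≤ W - 1 := div_le_self (by linarith) hpr1.le
      linarith
    refine (h2.trans h1).trans (Real.exp_le_exp.mpr ?_)
    have h3 : 0 ≤ Real.log (y / p) := Real.log_nonneg (by rw [le_div_iff₀ hpr]; linarith)
    linarith
  · push Not at c1
    by_cases c2 : (p : ℝ) ≤ y
    · rw [if_neg (by linarith), if_pos c2, if_neg (by intro h; linarith [h.1])]
      have h1 := ww_region2 hy1 hp c1 c2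
      rw [← hW] at h1
      have h2 : 1 ≤ y / p := by rw [le_div_iff₀ hpr]; linarith
      have h3 : 1 + (W - 1) / p ≤ 2 * (y / p) ^ 3 := by
        have e1 : (W - 1) / p ≤ (y / p) ^ 3 := by
          rw [div_le_iff₀ hpr]
          have e2 : (y / p) ^ 3 * p = y ^ 3 / (p : ℝ) ^ 2 := by field_simp
          rw [e2]; linarith
        have e3 : 1 ≤ (y / p) ^ 3 := one_le_pow₀ h2
        linarith
      have h4 : 2 * (y / p) ^ 3 = Real.exp (Real.log 2 + 3 * Real.log (y / p)) := by
        rw [Real.exp_add, Real.exp_log (by norm_num), mul_comm 3 (Real.log (y / p)),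
          show Real.log (y / p) * 3 = ((3 : ℕ) : ℝ) * Real.log (y / p) by push_cast; ring,
          Real.exp_nat_mul, Real.exp_log (by positivity)]
      refine h3.trans (h4.le.trans (Real.exp_le_exp.mpr ?_))
      linarith
    · push Not at c2
      rw [if_neg (by nlinarith), if_neg (by linarith)]
      by_cases c3 : (p : ℝ) ≤ y ^ 2
      · rw [if_pos ⟨c2, c3⟩]
        have h1 := ww_region3 hy1 hp c2.le c3
        rw [← hW] at h1
        have h2 : (W - 1) / p ≤ (y / p) ^ (3 / 2 : ℝ) := by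
          rw [div_le_iff₀ hpr, Real.div_rpow (by linarith) hpr.le]
          have e1 : y ^ (3 / 2 : ℝ) / (p : ℝ) ^ (3 / 2 : ℝ) * p =
              y ^ (3 / 2 : ℝ) * (p : ℝ) ^ (-(1 / 2) : ℝ) := by
            rw [div_mul_eq_mul_div, div_eq_iff (by positivity), mul_assoc,
              ← Real.rpow_add hpr]
            norm_num
          rw [e1]; linarith
        have h3 := Real.add_one_le_exp ((y / p) ^ (3 / 2 : ℝ))
        have h4 : Real.exp ((y / p) ^ (3 / 2 : ℝ)) ≤ Real.exp (0 + 0 + (y / p) ^ (3 / 2 : ℝ) +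
            2 * Real.log y * Real.sqrt y * (p : ℝ) ^ (-1 - (Real.log 2 / Real.log y))) :=
          Real.exp_le_exp.mpr (by linarith)
        linarith
      · push Not at c3
        rw [if_neg (by intro h; linarith [h.2])]
        have h1 := ww_region4 hy1 hp c3.le
        rw [← hW] at h1
        have h2 : (W - 1) / p ≤
            2 * Real.log y * Real.sqrt y * (p : ℝ) ^ (-1 - (Real.log 2 / Real.log y)) := by
          rw [div_le_iff₀ hpr]
          have e1 : (p : ℝ) ^ (-1 - (Real.log 2 / Real.log y)) * p =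
              (p : ℝ) ^ (-(Real.log 2 / Real.log y)) := by
            nth_rewrite 2 [← Real.rpow_one (p : ℝ)]
            rw [← Real.rpow_add hpr]; congr 1; ring
          rw [mul_assoc, e1]; exact h1
        have h3 := Real.add_one_le_exp (2 * Real.log y * Real.sqrt y *
          (p : ℝ) ^ (-1 - (Real.log 2 / Real.log y)))
        rw [zero_add, zero_add, zero_add]
        linarith

lemma EE_le {y : ℝ} (hy : Real.exp 1 ≤ y) (z : ℕ) :
    EE (Real.log 2 / Real.log y) z ≤ Real.exp (∑ p ∈ Nat.primesBelow (z + 1), bb y p) := by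
  have hy1 : 1 < y := lt_of_lt_of_le (by
    have := Real.add_one_lt_exp (one_ne_zero); linarith) hy
  have hΛ : 0 < Real.log y := Real.log_pos hy1
  have hl2 : 0 < Real.log 2 := Real.log_pos (by norm_num)
  have hσ : 0 < Real.log 2 / Real.log y := by positivity
  rw [Real.exp_sum]
  unfold EE
  apply Finset.prod_le_prod
  · intro p hp
    have := ww_one_le hσ (Nat.prime_of_mem_primesBelow hp).one_lt
    have h2 : 0 ≤ (ww (Real.log 2 / Real.log y) p - 1) / p :=
      div_nonneg (by linarith) (by positivity)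
    linarith
  · intro p hp
    exact factor_le hy (Nat.prime_of_mem_primesBelow hp).one_lt

end Pool.Agent.H96.KMF
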