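import Pool.Agent.H96.KMF.EBound

/-!
# The Euler product of the Jordan construction is `exp (O (y / log y))`
-/

set_option autoImplicit false

namespace Pool.Agent.H96.KMF

open Finset Filter Topology

lemma pi_le_five {x : ℝ} (hx : 1 < x) : (Nat.primeCounting ⌊x⌋₊ : ℝ) ≤ 5 * x / Real.log x := by
  have h1 := Chebyshev.pi_le_log4_mul_div hx
  have hlog : 0 < Real.log x := Real.log_pos hx
  have hs : 0 < Real.sqrt x := Real.sqrt_pos.mpr (by linarith)
  have hs2 : Real.sqrt x ^ 2 = x := Real.sq_sqrt (by linarith)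
  have e1 : Real.log (Real.sqrt x) = Real.log x / 2 := by
    rw [Real.log_sqrt (by linarith)]
  have e2 : Real.log 4 ≤ 1.4 := by
    rw [show (4 : ℝ) = 2 ^ 2 by norm_num, Real.log_pow]
    have := Real.log_two_lt_d9
    push_cast; linarith
  have e3 : Real.log x ≤ 2 * Real.sqrt x := by
    have := Real.log_le_sub_one_of_pos hs
    rw [e1] at this; linarith
  have e4 : Real.sqrt x ≤ 2 * x / Real.log x := by
    rw [le_div_iff₀ hlog]
    calc Real.sqrt x * Real.log x ≤ Real.sqrt x * (2 * Real.sqrt x) :=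
          mul_le_mul_of_nonneg_left e3 hs.le
      _ = 2 * Real.sqrt x ^ 2 := by ring
      _ = 2 * x := by rw [hs2]
  have e5 : Real.log 4 * x / Real.log (Real.sqrt x) ≤ 2.8 * x / Real.log x := by
    rw [e1, div_div_eq_mul_div]
    apply div_le_div_of_nonneg_right _ hlog.le
    nlinarith
  have e6 : 5 * x / Real.log x = 2.8 * x / Real.log x + 2 * x / Real.log x +
      0.2 * x / Real.log x := by ring
  have e7 : 0 ≤ 0.2 * x / Real.log x := by positivity
  linarith

lemma card_primes_le (z : ℕ) (x : ℝ) :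
    (((Nat.primesBelow (z + 1)).filter (fun p : ℕ => (p : ℝ) ≤ x)).card : ℝ) ≤
      Nat.primeCounting ⌊x⌋₊ := by
  have h1 : (Nat.primesBelow (z + 1)).filter (fun p : ℕ => (p : ℝ) ≤ x) ⊆
      Nat.primesBelow (⌊x⌋₊ + 1) := by
    intro p hp
    rw [Finset.mem_filter, Nat.mem_primesBelow] at hp
    rw [Nat.mem_primesBelow]
    refine ⟨?_, hp.1.2⟩
    have := Nat.le_floor hp.2
    omega
  have h2 := Finset.card_le_card h1
  have h3 : (Nat.primesBelow (⌊x⌋₊ + 1)).card = Nat.primeCounting ⌊x⌋₊ := by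
    rw [Nat.primesBelow_card_eq_primeCounting']; rfl
  rw [h3] at h2
  exact_mod_cast h2

/-- the sum over small primes -/
lemma sum_a (y : ℝ) (z : ℕ) :
    ∑ p ∈ Nat.primesBelow (z + 1), (if (p : ℝ) ^ 2 < y then 7 * Real.log y ^ 2 else 0) ≤
      7 * Real.log y ^ 2 * Real.sqrt y := by
  rw [← Finset.sum_filter, Finset.sum_const, nsmul_eq_mul, mul_comm]
  apply mul_le_mul_of_nonneg_left _ (by positivity)
  have h1 : (Nat.primesBelow (z + 1)).filter (fun p : ℕ => (p : ℝ) ^ 2 < y) ⊆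
      Finset.Icc 1 ⌊Real.sqrt y⌋₊ := by
    intro p hp
    rw [Finset.mem_filter] at hp
    rw [Finset.mem_Icc]
    refine ⟨(Nat.prime_of_mem_primesBelow hp.1).one_lt.le, Nat.le_floor ?_⟩
    exact Real.le_sqrt_of_sq_le hp.2.le
  calc _ ≤ ((Finset.Icc 1 ⌊Real.sqrt y⌋₊).card : ℝ) := by exact_mod_cast Finset.card_le_card h1
    _ = (⌊Real.sqrt y⌋₊ : ℝ) := by simp
    _ ≤ Real.sqrt y := Nat.floor_le (Real.sqrt_nonneg _)

lemma sum_b {y : ℝ} (hy : 2 ≤ y) (z : ℕ) :
    ∑ p ∈ Nat.primesBelow (z + 1),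
      (if (p : ℝ) ≤ y then Real.log 2 + 3 * Real.log (y / p) else 0) ≤
      Real.log 2 * Nat.primeCounting ⌊y⌋₊ +
        3 * (Nat.primeCounting ⌊y⌋₊ * Real.log y - Chebyshev.theta y) := by
  rw [← Finset.sum_filter]
  have h1 : (Nat.primesBelow (z + 1)).filter (fun p : ℕ => (p : ℝ) ≤ y) ⊆
      Nat.primesLE ⌊y⌋₊ := by
    intro p hp
    rw [Finset.mem_filter, Nat.mem_primesBelow] at hp
    rw [Nat.mem_primesLE]
    exact ⟨Nat.le_floor hp.2, hp.1.2⟩
  have hl2 : 0 < Real.log 2 := Real.log_pos (by norm_num)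
  have h2 : ∀ p ∈ Nat.primesLE ⌊y⌋₊, 0 < (p : ℝ) ∧ (p : ℝ) ≤ y := by
    intro p hp
    rw [Nat.mem_primesLE] at hp
    refine ⟨by exact_mod_cast hp.2.pos, ?_⟩
    exact (Nat.le_floor_iff (by linarith)).mp hp.1
  calc _ ≤ ∑ p ∈ Nat.primesLE ⌊y⌋₊, (Real.log 2 + 3 * Real.log (y / p)) := by
        apply Finset.sum_le_sum_of_subset_of_nonneg h1
        intro p hp _
        obtain ⟨a, b⟩ := h2 p hp
        have : 0 ≤ Real.log (y / p) := Real.log_nonneg (by rw [le_div_iff₀ a]; linarith)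
        positivity
    _ = ∑ p ∈ Nat.primesLE ⌊y⌋₊, ((Real.log 2 + 3 * Real.log y) - 3 * Real.log p) := by
        refine Finset.sum_congr rfl fun p hp => ?_
        obtain ⟨a, b⟩ := h2 p hp
        rw [Real.log_div (by linarith) a.ne']; ring
    _ = _ := by
        rw [Finset.sum_sub_distrib, Finset.sum_const, nsmul_eq_mul, ← Finset.mul_sum,
          Chebyshev.theta_eq_theta_coe_floor, Chebyshev.theta_eq_sum_primesLE_log]
        have : (Nat.primesLE ⌊y⌋₊).card = Nat.primeCounting ⌊y⌋₊ := by simp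
        rw [this]; ring

lemma sum_c {y : ℝ} (hy : 1 < y) (z I : ℕ) :
    ∑ p ∈ (Nat.primesBelow (z + 1)).filter (fun p : ℕ => y < (p : ℝ) ∧ (p : ℝ) ≤ 4 ^ I * y),
      (y / p) ^ (3 / 2 : ℝ) ≤ ∑ i ∈ Finset.range I, 20 * y / Real.log y * (1 / 2) ^ i := by
  have hΛ : 0 < Real.log y := Real.log_pos hy
  induction I with
  | zero =>
    rw [Finset.sum_range_zero]
    apply le_of_eq
    apply Finset.sum_eq_zero
    intro p hp
    rw [Finset.mem_filter] at hp
    exfalso
    have := hp.2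
    simp only [pow_zero, one_mul] at this
    linarith [this.1, this.2]
  | succ I ih =>
    rw [Finset.sum_range_succ]
    have hsub : (Nat.primesBelow (z + 1)).filter
        (fun p : ℕ => y < (p : ℝ) ∧ (p : ℝ) ≤ 4 ^ (I + 1) * y) ⊆
        (Nat.primesBelow (z + 1)).filter (fun p : ℕ => y < (p : ℝ) ∧ (p : ℝ) ≤ 4 ^ I * y) ∪
        (Nat.primesBelow (z + 1)).filter
          (fun p : ℕ => 4 ^ I * y < (p : ℝ) ∧ (p : ℝ) ≤ 4 ^ (I + 1) * y) := by
      intro p hp
      rw [Finset.mem_filter] at hp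
      rw [Finset.mem_union, Finset.mem_filter, Finset.mem_filter]
      by_cases h : (p : ℝ) ≤ 4 ^ I * y
      · left; exact ⟨hp.1, hp.2.1, h⟩
      · right; push Not at h; exact ⟨hp.1, h, hp.2.2⟩
    refine (Finset.sum_le_sum_of_subset_of_nonneg hsub (fun p _ _ => by positivity)).trans ?_
    refine le_trans (le_of_le_of_eq (le_add_of_nonneg_right (Finset.sum_nonneg
      (fun p _ => by positivity))) (Finset.sum_union_inter)) ?_
    refine add_le_add ih ?_
    have h4I : (1 : ℝ) ≤ 4 ^ I := one_le_pow₀ (by norm_num)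
    calc ∑ p ∈ (Nat.primesBelow (z + 1)).filter
          (fun p : ℕ => 4 ^ I * y < (p : ℝ) ∧ (p : ℝ) ≤ 4 ^ (I + 1) * y), (y / p) ^ (3 / 2 : ℝ)
        ≤ ∑ p ∈ (Nat.primesBelow (z + 1)).filter
          (fun p : ℕ => 4 ^ I * y < (p : ℝ) ∧ (p : ℝ) ≤ 4 ^ (I + 1) * y), (1 / 8 : ℝ) ^ I := by
          refine Finset.sum_le_sum fun p hp => ?_
          rw [Finset.mem_filter] at hp
          have hp0 : (0 : ℝ) < p := lt_trans (by positivity) hp.2.1
          have e1 : y / p ≤ (1 / 4 : ℝ) ^ I := by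
            rw [div_le_iff₀ hp0, one_div, inv_pow, inv_mul_eq_div, le_div_iff₀ (by positivity)]
            linarith [hp.2.1]
          calc (y / p) ^ (3 / 2 : ℝ) ≤ ((1 / 4 : ℝ) ^ I) ^ (3 / 2 : ℝ) :=
                Real.rpow_le_rpow (by positivity) e1 (by norm_num)
            _ = (1 / 8 : ℝ) ^ I := by
                rw [← Real.rpow_natCast, ← Real.rpow_mul (by norm_num), mul_comm,
                  Real.rpow_mul (by norm_num), Real.rpow_natCast]
                congr 1
                rw [show (1 / 4 : ℝ) = (1 / 2) ^ (2 : ℝ) by norm_num, ← Real.rpow_mul (by norm_num)]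
                norm_num
      _ = (((Nat.primesBelow (z + 1)).filter
          (fun p : ℕ => 4 ^ I * y < (p : ℝ) ∧ (p : ℝ) ≤ 4 ^ (I + 1) * y)).card : ℝ) *
            (1 / 8 : ℝ) ^ I := by rw [Finset.sum_const, nsmul_eq_mul]
      _ ≤ (5 * (4 ^ (I + 1) * y) / Real.log y) * (1 / 8 : ℝ) ^ I := by
          apply mul_le_mul_of_nonneg_right _ (by positivity)
          have e1 : (((Nat.primesBelow (z + 1)).filter
              (fun p : ℕ => 4 ^ I * y < (p : ℝ) ∧ (p : ℝ) ≤ 4 ^ (I + 1) * y)).card : ℝ) ≤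
              (((Nat.primesBelow (z + 1)).filter
              (fun p : ℕ => (p : ℝ) ≤ 4 ^ (I + 1) * y)).card : ℝ) := by
            have : (Nat.primesBelow (z + 1)).filter
              (fun p : ℕ => 4 ^ I * y < (p : ℝ) ∧ (p : ℝ) ≤ 4 ^ (I + 1) * y) ⊆
              (Nat.primesBelow (z + 1)).filter (fun p : ℕ => (p : ℝ) ≤ 4 ^ (I + 1) * y) := by
              intro p hp
              rw [Finset.mem_filter] at hp ⊢
              exact ⟨hp.1, hp.2.2⟩
            exact_mod_cast Finset.card_le_card this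
          have hge : y ≤ 4 ^ (I + 1) * y := by
            have : (1 : ℝ) ≤ 4 ^ (I + 1) := one_le_pow₀ (by norm_num)
            nlinarith
          have e2 := card_primes_le z (4 ^ (I + 1) * y)
          have e3 := pi_le_five (x := 4 ^ (I + 1) * y) (by linarith)
          refine (e1.trans (e2.trans e3)).trans ?_
          apply div_le_div_of_nonneg_left (by positivity) hΛ
          exact Real.log_le_log (by linarith) hge
      _ = 20 * y / Real.log y * (1 / 2) ^ I := by
          rw [pow_succ, one_div_pow, one_div_pow]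
          rw [show (8 : ℝ) ^ I = 4 ^ I * 2 ^ I by rw [← mul_pow]; norm_num]
          field_simp
          ring

lemma sum_c' {y : ℝ} (hy : 1 < y) (z : ℕ) :
    ∑ p ∈ Nat.primesBelow (z + 1),
      (if y < (p : ℝ) ∧ (p : ℝ) ≤ y ^ 2 then (y / p) ^ (3 / 2 : ℝ) else 0) ≤
      40 * y / Real.log y := by
  have hΛ : 0 < Real.log y := Real.log_pos hy
  rw [← Finset.sum_filter]
  obtain ⟨I, hI⟩ := pow_unbounded_of_one_lt y (by norm_num : (1 : ℝ) < 4)
  have h1 := sum_c hy z I
  have hsub : (Nat.primesBelow (z + 1)).filter (fun p : ℕ => y < (p : ℝ) ∧ (p : ℝ) ≤ y ^ 2) ⊆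
      (Nat.primesBelow (z + 1)).filter (fun p : ℕ => y < (p : ℝ) ∧ (p : ℝ) ≤ 4 ^ I * y) := by
    intro p hp
    rw [Finset.mem_filter] at hp ⊢
    refine ⟨hp.1, hp.2.1, hp.2.2.trans ?_⟩
    nlinarith
  refine (Finset.sum_le_sum_of_subset_of_nonneg hsub (fun p _ _ => by positivity)).trans
    (h1.trans ?_)
  rw [← Finset.mul_sum]
  have h2 : ∑ i ∈ Finset.range I, (1 / 2 : ℝ) ^ i ≤ 2 := by
    have := geom_sum_eq (by norm_num : (1 / 2 : ℝ) ≠ 1) I
    rw [this]
    have h3 : (0 : ℝ) ≤ (1 / 2) ^ I := by positivity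
    rw [div_le_iff_of_neg (by norm_num)]
    linarith
  calc 20 * y / Real.log y * ∑ i ∈ Finset.range I, (1 / 2 : ℝ) ^ i ≤
        20 * y / Real.log y * 2 := mul_le_mul_of_nonneg_left h2 (by positivity)
    _ = _ := by ring

lemma sum_pow_le {σ : ℝ} (hσ : 0 < σ) (z : ℕ) :
    ∑ m ∈ Finset.Icc 2 (z + 1), (m : ℝ) ^ (-1 - σ) ≤ (1 - ((z + 1 : ℕ) : ℝ) ^ (-σ)) / σ := by
  induction z with
  | zero => simp
  | succ z ih =>
    rw [Finset.sum_Icc_succ_top (by omega)]
    set v : ℝ := ((z + 1 + 1 : ℕ) : ℝ) with hv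
    set w : ℝ := ((z + 1 : ℕ) : ℝ) with hw
    have hw0 : 0 < w := by rw [hw]; positivity
    have hvw : v = w + 1 := by rw [hv, hw]; push_cast; ring
    have hv0 : 0 < v := by linarith
    have e1 : v ^ (-σ) * (1 + σ / v) ≤ w ^ (-σ) := by
      have a1 : 1 + σ / v ≤ (w / v) ^ (-σ) := by
        rw [Real.rpow_def_of_pos (by positivity)]
        have a2 : Real.log (w / v) ≤ w / v - 1 := Real.log_le_sub_one_of_pos (by positivity)
        have a3 : w / v - 1 = -(1 / v) := by rw [hvw]; field_simp; ring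
        have a4 := Real.add_one_le_exp (Real.log (w / v) * -σ)
        have a5 : σ * (1 / v) ≤ -σ * Real.log (w / v) := by nlinarith
        have a6 : σ / v = σ * (1 / v) := by ring
        rw [a6]
        linarith
      have a7 : (w / v) ^ (-σ) = w ^ (-σ) / v ^ (-σ) := Real.div_rpow hw0.le hv0.le _
      rw [a7, le_div_iff₀ (Real.rpow_pos_of_pos hv0 _)] at a1
      linarith
    have e2 : v ^ (-1 - σ) = v ^ (-σ) / v := by
      rw [show -1 - σ = -σ + -1 by ring, Real.rpow_add hv0, Real.rpow_neg_one]; rfl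
    rw [e2]
    have e3 : (1 - v ^ (-σ)) / σ = (1 - w ^ (-σ)) / σ + (w ^ (-σ) - v ^ (-σ)) / σ := by ring
    rw [e3]
    apply add_le_add ih
    rw [le_div_iff₀ hσ]
    have e4 : v ^ (-σ) / v * σ = v ^ (-σ) * (σ / v) := by ring
    rw [e4]; linarith

lemma sum_d {y : ℝ} (hy : 1 < y) (z : ℕ) :
    ∑ p ∈ Nat.primesBelow (z + 1),
      2 * Real.log y * Real.sqrt y * (p : ℝ) ^ (-1 - (Real.log 2 / Real.log y)) ≤
      3 * Real.log y ^ 2 * Real.sqrt y := by
  have hΛ : 0 < Real.log y := Real.log_pos hy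
  have hl2 : 0 < Real.log 2 := Real.log_pos (by norm_num)
  have hσ : 0 < Real.log 2 / Real.log y := by positivity
  rw [← Finset.mul_sum]
  have h1 : ∑ p ∈ Nat.primesBelow (z + 1), (p : ℝ) ^ (-1 - (Real.log 2 / Real.log y)) ≤
      1 / (Real.log 2 / Real.log y) := by
    calc ∑ p ∈ Nat.primesBelow (z + 1), (p : ℝ) ^ (-1 - (Real.log 2 / Real.log y)) ≤
        ∑ m ∈ Finset.Icc 2 (z + 1), (m : ℝ) ^ (-1 - (Real.log 2 / Real.log y)) := by
          apply Finset.sum_le_sum_of_subset_of_nonneg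
          · intro p hp
            rw [Nat.mem_primesBelow] at hp
            rw [Finset.mem_Icc]
            exact ⟨hp.2.two_le, by omega⟩
          · intro m _ _; positivity
      _ ≤ _ := sum_pow_le hσ z
      _ ≤ _ := by
          apply div_le_div_of_nonneg_right _ hσ.le
          have : 0 ≤ ((z + 1 : ℕ) : ℝ) ^ (-(Real.log 2 / Real.log y)) := by positivity
          linarith
  calc _ ≤ 2 * Real.log y * Real.sqrt y * (1 / (Real.log 2 / Real.log y)) :=
        mul_le_mul_of_nonneg_left h1 (by positivity)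
    _ = (2 / Real.log 2) * Real.log y ^ 2 * Real.sqrt y := by field_simp
    _ ≤ 3 * Real.log y ^ 2 * Real.sqrt y := by
        apply mul_le_mul_of_nonneg_right _ (Real.sqrt_nonneg _)
        apply mul_le_mul_of_nonneg_right _ (by positivity)
        rw [div_le_iff₀ hl2]
        have := Real.log_two_gt_d9
        linarith

/-- The Euler product is `exp (O (y / log y))`. -/
theorem exists_EE_bound : ∃ C : ℝ, 0 < C ∧ ∀ᶠ y : ℝ in atTop, ∀ z : ℕ,
    EE (Real.log 2 / Real.log y) z ≤ Real.exp (C * (y / Real.log y)) := by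
  obtain ⟨C0, hC0, hB⟩ := Chebyshev.primeCounting_sub_theta_div_log_isBigO.exists_pos
  have hB' := hB.bound
  have hlit := (isLittleO_log_rpow_rpow_atTop (3 : ℝ) (by norm_num : (0 : ℝ) < 1 / 2)).bound
    (by norm_num : (0 : ℝ) < 1 / 10)
  refine ⟨3.5 + 3 * C0 + 40 + 1, by positivity, ?_⟩
  filter_upwards [hB', hlit, eventually_ge_atTop (Real.exp 1), eventually_ge_atTop (2 : ℝ)] with
    y h1 h2 h3 h4 z
  have hy1 : 1 < y := by linarith
  have hΛ : 0 < Real.log y := Real.log_pos hy1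
  have hy0 : 0 < y := by linarith
  have hsy : 0 < Real.sqrt y := Real.sqrt_pos.mpr hy0
  refine (EE_le h3 z).trans (Real.exp_le_exp.mpr ?_)
  unfold bb
  rw [Finset.sum_add_distrib, Finset.sum_add_distrib, Finset.sum_add_distrib]
  have sa := sum_a y z
  have sb := sum_b h4 z
  have sc := sum_c' hy1 z
  have sd := sum_d hy1 z
  have e1 : Nat.primeCounting ⌊y⌋₊ * Real.log y - Chebyshev.theta y ≤ C0 * (y / Real.log y) := by
    rw [Real.norm_eq_abs, Real.norm_eq_abs, abs_of_nonneg (by positivity : 0 ≤ y / Real.log y ^ 2)]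
      at h1
    have a1 := (le_abs_self _).trans h1
    have a2 := mul_le_mul_of_nonneg_right a1 hΛ.le
    have a3 : ((Nat.primeCounting ⌊y⌋₊ : ℝ) - Chebyshev.theta y / Real.log y) * Real.log y =
        Nat.primeCounting ⌊y⌋₊ * Real.log y - Chebyshev.theta y := by field_simp
    have a4 : C0 * (y / Real.log y ^ 2) * Real.log y = C0 * (y / Real.log y) := by field_simp
    rw [a3, a4] at a2
    exact a2
  have e2 : Real.log 2 * (Nat.primeCounting ⌊y⌋₊ : ℝ) ≤ 3.5 * (y / Real.log y) := by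
    have a1 := pi_le_five hy1
    have a2 := Real.log_two_lt_d9
    have a3 : 5 * y / Real.log y = 5 * (y / Real.log y) := by ring
    rw [a3] at a1
    have a4 : 0 < y / Real.log y := by positivity
    have a5 : 0 < Real.log 2 := Real.log_pos (by norm_num)
    calc Real.log 2 * (Nat.primeCounting ⌊y⌋₊ : ℝ) ≤ Real.log 2 * (5 * (y / Real.log y)) :=
          mul_le_mul_of_nonneg_left a1 a5.le
      _ ≤ 0.7 * (5 * (y / Real.log y)) := by
          apply mul_le_mul_of_nonneg_right _ (by positivity)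
          linarith
      _ = 3.5 * (y / Real.log y) := by ring
  have e3 : 10 * Real.log y ^ 2 * Real.sqrt y ≤ y / Real.log y := by
    rw [Real.norm_eq_abs, Real.norm_eq_abs, abs_of_nonneg (by positivity),
      abs_of_nonneg (by positivity), ← Real.sqrt_eq_rpow,
      show (3 : ℝ) = ((3 : ℕ) : ℝ) by norm_num, Real.rpow_natCast] at h2
    rw [le_div_iff₀ hΛ]
    have a1 : Real.sqrt y * Real.sqrt y = y := Real.mul_self_sqrt hy0.le
    calc 10 * Real.log y ^ 2 * Real.sqrt y * Real.log y =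
          10 * Real.log y ^ 3 * Real.sqrt y := by ring
      _ ≤ Real.sqrt y * Real.sqrt y := by
          apply mul_le_mul_of_nonneg_right _ hsy.le
          linarith
      _ = y := a1
  have e4 : 40 * y / Real.log y = 40 * (y / Real.log y) := by ring
  rw [e4] at sc
  have e5 : (3.5 + 3 * C0 + 40 + 1) * (y / Real.log y) = 3.5 * (y / Real.log y) +
      3 * (C0 * (y / Real.log y)) + 40 * (y / Real.log y) + y / Real.log y := by ring
  rw [e5]
  linarith

end Pool.Agent.H96.KMF
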