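import Pool.Agent.H96.KMF.Main1

/-!
# A construction of large `k`-multiple-free sets from Jordan's totient function
-/

set_option autoImplicit false

namespace Pool.Agent.H96.KMF

open Finset Filter Topology

/-- `∏_{p ∣ x} (1 - p^{-σ})`. -/
noncomputable def wt (σ : ℝ) (x : ℕ) : ℝ := ∏ p ∈ x.primeFactors, (1 - (p : ℝ) ^ (-σ))

/-- Jordan's function `x^σ ∏_{p ∣ x} (1 - p^{-σ})` for a real exponent. -/
noncomputable def jf (σ : ℝ) (x : ℕ) : ℝ := (x : ℝ) ^ σ * wt σ x

lemma wt_mul {σ : ℝ} {m n : ℕ} (h : Nat.Coprime m n) : wt σ (m * n) = wt σ m * wt σ n := by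
  unfold wt
  rw [h.primeFactors_mul, Finset.prod_union h.disjoint_primeFactors]

/-- Jordan's function as an arithmetic function. -/
noncomputable def JA (σ : ℝ) : ArithmeticFunction ℝ :=
  ⟨fun x => if x = 0 then 0 else jf σ x, by simp⟩

/-- the power function as an arithmetic function. -/
noncomputable def PA (σ : ℝ) : ArithmeticFunction ℝ :=
  ⟨fun x => if x = 0 then 0 else (x : ℝ) ^ σ, by simp⟩

lemma JA_apply {σ : ℝ} {x : ℕ} (hx : x ≠ 0) : JA σ x = jf σ x := by
  unfold JA; simp [hx]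

lemma PA_apply {σ : ℝ} {x : ℕ} (hx : x ≠ 0) : PA σ x = (x : ℝ) ^ σ := by
  unfold PA; simp [hx]

lemma JA_mult (σ : ℝ) : (JA σ).IsMultiplicative := by
  rw [ArithmeticFunction.IsMultiplicative.iff_ne_zero]
  refine ⟨?_, ?_⟩
  · rw [JA_apply one_ne_zero]; unfold jf wt; simp
  · intro m n hm hn h
    rw [JA_apply (mul_ne_zero hm hn), JA_apply hm, JA_apply hn]
    unfold jf
    rw [wt_mul h]
    push_cast
    rw [Real.mul_rpow (by positivity) (by positivity)]
    ring

lemma PA_mult (σ : ℝ) : (PA σ).IsMultiplicative := by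
  rw [ArithmeticFunction.IsMultiplicative.iff_ne_zero]
  refine ⟨?_, ?_⟩
  · rw [PA_apply one_ne_zero]; simp
  · intro m n hm hn h
    rw [PA_apply (mul_ne_zero hm hn), PA_apply hm, PA_apply hn]
    push_cast
    rw [Real.mul_rpow (by positivity) (by positivity)]

lemma sum_jf (σ : ℝ) {x : ℕ} (hx : x ≠ 0) : ∑ d ∈ x.divisors, jf σ d = (x : ℝ) ^ σ := by
  have h1 : JA σ * (ArithmeticFunction.zeta : ArithmeticFunction ℝ) = PA σ := by
    rw [ArithmeticFunction.IsMultiplicative.eq_iff_eq_on_prime_powers _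
      ((JA_mult σ).mul ArithmeticFunction.isMultiplicative_zeta.natCast) _ (PA_mult σ)]
    intro p i hp
    rw [ArithmeticFunction.coe_mul_zeta_apply, Nat.sum_divisors_prime_pow hp,
      PA_apply (pow_ne_zero _ hp.ne_zero)]
    induction i with
    | zero =>
      rw [Finset.sum_range_one, pow_zero, JA_apply one_ne_zero]; unfold jf wt; simp
    | succ i ih =>
      rw [Finset.sum_range_succ, ih, JA_apply (pow_ne_zero _ hp.ne_zero)]
      unfold jf wt
      rw [Nat.primeFactors_prime_pow (by omega) hp, Finset.prod_singleton]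
      have hpr : (0 : ℝ) < p := by exact_mod_cast hp.pos
      have e1 : (((p ^ (i + 1) : ℕ) : ℝ)) ^ σ * (p : ℝ) ^ (-σ) = ((p ^ i : ℕ) : ℝ) ^ σ := by
        push_cast
        rw [pow_succ, Real.mul_rpow (by positivity) hpr.le, mul_assoc, ← Real.rpow_add hpr]
        simp
      rw [mul_sub, mul_one, e1]
      ring
  have h2 : (JA σ * (ArithmeticFunction.zeta : ArithmeticFunction ℝ)) x = PA σ x := by rw [h1]
  rw [ArithmeticFunction.coe_mul_zeta_apply, PA_apply hx] at h2
  rw [← h2]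
  refine Finset.sum_congr rfl fun d hd => ?_
  rw [JA_apply (Nat.pos_of_mem_divisors hd).ne']

lemma wt_pos {σ : ℝ} (hσ : 0 < σ) (x : ℕ) : 0 < wt σ x := by
  unfold wt
  apply Finset.prod_pos
  intro p hp
  have hp1 : (1 : ℝ) < p := by exact_mod_cast (Nat.prime_of_mem_primeFactors hp).one_lt
  have : (p : ℝ) ^ (-σ) < 1 := Real.rpow_lt_one_of_one_lt_of_neg hp1 (by linarith)
  linarith

lemma jf_nonneg {σ : ℝ} (hσ : 0 < σ) (x : ℕ) : 0 ≤ jf σ x := by
  unfold jf
  have := wt_pos hσ x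
  positivity

/-- The construction: `{x ≤ n : k J_σ(x) ≥ n^σ}` is `k`-multiple-free. -/
theorem jordan_kmf (k n : ℕ) (hk : 1 ≤ k) (hn : 1 ≤ n) (σ : ℝ) (hσ : 0 < σ) :
    KMultipleFree k ((Finset.Icc 1 n).filter (fun x => (n : ℝ) ^ σ ≤ k * jf σ x)) := by
  rw [kmf_iff]
  intro a ha
  set A := (Finset.Icc 1 n).filter (fun x => (n : ℝ) ^ σ ≤ k * jf σ x) with hA
  set F := A.filter (fun b => b ∣ a ∧ b ≠ a) with hF
  have ha' := ha
  rw [hA, Finset.mem_filter, Finset.mem_Icc] at ha'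
  have hnr : (0 : ℝ) < n := by exact_mod_cast hn
  have hkr : (0 : ℝ) < k := by exact_mod_cast hk
  have hnσ : 0 < (n : ℝ) ^ σ := Real.rpow_pos_of_pos hnr σ
  have haF : a ∉ F := by rw [hF, Finset.mem_filter]; simp
  have hsub : insert a F ⊆ a.divisors := by
    intro b hb
    rw [Finset.mem_insert] at hb
    rw [Nat.mem_divisors]
    rcases hb with rfl | hb
    · exact ⟨dvd_rfl, by omega⟩
    · rw [hF, Finset.mem_filter] at hb
      exact ⟨hb.2.1, by omega⟩
  have hlow : ∀ b ∈ insert a F, (n : ℝ) ^ σ / k ≤ jf σ b := by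
    intro b hb
    rw [Finset.mem_insert] at hb
    have hbA : b ∈ A := by
      rcases hb with rfl | hb
      · exact ha
      · rw [hF, Finset.mem_filter] at hb; exact hb.1
    rw [hA, Finset.mem_filter] at hbA
    rw [div_le_iff₀ hkr]
    linarith [hbA.2]
  have h1 : ((insert a F).card : ℝ) * ((n : ℝ) ^ σ / k) ≤ (a : ℝ) ^ σ := by
    rw [← sum_jf σ (by omega : a ≠ 0)]
    calc ((insert a F).card : ℝ) * ((n : ℝ) ^ σ / k) = ∑ b ∈ insert a F, (n : ℝ) ^ σ / k := by
          rw [Finset.sum_const, nsmul_eq_mul]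
      _ ≤ ∑ b ∈ insert a F, jf σ b := Finset.sum_le_sum hlow
      _ ≤ ∑ b ∈ a.divisors, jf σ b :=
          Finset.sum_le_sum_of_subset_of_nonneg hsub fun b _ _ => jf_nonneg hσ b
  have h2 : (a : ℝ) ^ σ ≤ (n : ℝ) ^ σ :=
    Real.rpow_le_rpow (by positivity) (by exact_mod_cast ha'.1.2) hσ.le
  have h3 : ((insert a F).card : ℝ) ≤ k := by
    have h4 : ((insert a F).card : ℝ) * ((n : ℝ) ^ σ / k) ≤ k * ((n : ℝ) ^ σ / k) := by
      rw [mul_div_cancel₀ _ hkr.ne']
      exact h1.trans h2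
    exact le_of_mul_le_mul_right h4 (by positivity)
  rw [Finset.card_insert_of_notMem haF] at h3
  have h5 : F.card + 1 ≤ k := by exact_mod_cast h3
  omega

/-- `w_p = (1 - p^{-σ})^{-1/σ}`. -/
noncomputable def ww (σ : ℝ) (p : ℕ) : ℝ := (1 - (p : ℝ) ^ (-σ)) ^ (-(1 / σ))

/-- `∏_{p ∣ x} w_p`. -/
noncomputable def VV (σ : ℝ) (x : ℕ) : ℝ := ∏ p ∈ x.primeFactors, ww σ p

lemma ww_one_le {σ : ℝ} (hσ : 0 < σ) {p : ℕ} (hp : 1 < p) : 1 ≤ ww σ p := by
  unfold ww
  have hp1 : (1 : ℝ) < p := by exact_mod_cast hp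
  have h1 : (p : ℝ) ^ (-σ) < 1 := Real.rpow_lt_one_of_one_lt_of_neg hp1 (by linarith)
  have h2 : 0 < (p : ℝ) ^ (-σ) := Real.rpow_pos_of_pos (by linarith) _
  apply Real.one_le_rpow_of_pos_of_le_one_of_nonpos (by linarith) (by linarith)
  have : 0 < 1 / σ := by positivity
  linarith

lemma VV_eq {σ : ℝ} (hσ : 0 < σ) (x : ℕ) : VV σ x = (wt σ x) ^ (-(1 / σ)) := by
  unfold VV wt ww
  rw [Real.finsetProd_rpow]
  intro p hp
  have hp1 : (1 : ℝ) < p := by exact_mod_cast (Nat.prime_of_mem_primeFactors hp).one_lt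
  have : (p : ℝ) ^ (-σ) < 1 := Real.rpow_lt_one_of_one_lt_of_neg hp1 (by linarith)
  linarith

lemma compl_bound {σ : ℝ} (hσ : 0 < σ) {k n x : ℕ} (hk : 1 ≤ k) (hx : 1 ≤ x)
    (h : (k : ℝ) * jf σ x < (n : ℝ) ^ σ) :
    (k : ℝ) ^ (1 / σ) * x < VV σ x * n := by
  have hkr : (0 : ℝ) < k := by exact_mod_cast hk
  have hxr : (0 : ℝ) < x := by exact_mod_cast hx
  have hw := wt_pos hσ x
  unfold jf at h
  have h1 : (0 : ℝ) ≤ k * ((x : ℝ) ^ σ * wt σ x) := by positivity
  have h2 := Real.rpow_lt_rpow h1 h (by positivity : 0 < 1 / σ)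
  rw [← Real.rpow_mul (by positivity : (0 : ℝ) ≤ n), mul_one_div_cancel hσ.ne', Real.rpow_one,
    Real.mul_rpow hkr.le (by positivity), Real.mul_rpow (by positivity) hw.le,
    ← Real.rpow_mul hxr.le, mul_one_div_cancel hσ.ne', Real.rpow_one] at h2
  rw [VV_eq hσ, Real.rpow_neg hw.le]
  have hw2 : 0 < wt σ x ^ (1 / σ) := Real.rpow_pos_of_pos hw _
  rw [inv_mul_eq_div, lt_div_iff₀ hw2]
  calc (k : ℝ) ^ (1 / σ) * x * wt σ x ^ (1 / σ) = (k : ℝ) ^ (1 / σ) * (x * wt σ x ^ (1 / σ)) := by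
        ring
    _ < n := h2

/-- the Euler product `∏_{p ≤ z} (1 + (w_p - 1)/p)`. -/
noncomputable def EE (σ : ℝ) (z : ℕ) : ℝ :=
  ∏ p ∈ Nat.primesBelow (z + 1), (1 + (ww σ p - 1) / p)

lemma sum_VV_le {σ : ℝ} (hσ : 0 < σ) (z Z : ℕ) (hzZ : z ≤ Z) :
    ∑ x ∈ Finset.Icc 1 z, VV σ x ≤ z * EE σ Z := by
  classical
  have h1 : ∀ x ∈ Finset.Icc 1 z, VV σ x =
      ∑ S ∈ (Nat.primesBelow (Z + 1)).powerset,
        if (∏ p ∈ S, p) ∣ x then ∏ p ∈ S, (ww σ p - 1) else 0 := by
    intro x hx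
    rw [Finset.mem_Icc] at hx
    have e1 : VV σ x = ∏ p ∈ x.primeFactors, (1 + (ww σ p - 1)) := by
      unfold VV; refine Finset.prod_congr rfl fun p _ => by ring
    rw [e1, Finset.prod_one_add]
    rw [← Finset.sum_filter]
    apply Finset.sum_congr
    · ext S
      rw [Finset.mem_powerset, Finset.mem_filter, Finset.mem_powerset]
      constructor
      · intro hS
        refine ⟨fun p hp => ?_, ?_⟩
        · have := hS hp
          rw [Nat.mem_primeFactors] at this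
          rw [Nat.mem_primesBelow]
          refine ⟨?_, this.1⟩
          have := Nat.le_of_dvd (by omega) this.2.1
          omega
        · exact (Finset.prod_dvd_prod_of_subset _ _ _ hS).trans (Nat.prod_primeFactors_dvd x)
      · rintro ⟨hS, hd⟩ p hp
        rw [Nat.mem_primeFactors]
        refine ⟨Nat.prime_of_mem_primesBelow (hS hp), (Finset.dvd_prod_of_mem _ hp).trans hd, by omega⟩
    · intros; rfl
  rw [Finset.sum_congr rfl h1, Finset.sum_comm]
  have h2 : (z : ℝ) * EE σ Z = ∑ S ∈ (Nat.primesBelow (Z + 1)).powerset,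
      z * ∏ p ∈ S, ((ww σ p - 1) / p) := by
    unfold EE
    rw [Finset.prod_one_add, Finset.mul_sum]
  rw [h2]
  refine Finset.sum_le_sum fun S hS => ?_
  rw [Finset.mem_powerset] at hS
  rw [← Finset.sum_filter, Finset.sum_const, nsmul_eq_mul, Finset.prod_div_distrib]
  have h3 : 0 ≤ ∏ p ∈ S, (ww σ p - 1) := by
    apply Finset.prod_nonneg
    intro p hp
    have := ww_one_le hσ (Nat.prime_of_mem_primesBelow (hS hp)).one_lt
    linarith
  have h4 : (((Finset.Icc 1 z).filter (fun x => (∏ p ∈ S, p) ∣ x)).card : ℝ) ≤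
      z / (∏ p ∈ S, (p : ℝ)) := by
    have h5 : ((Finset.Icc 1 z).filter (fun x => (∏ p ∈ S, p) ∣ x)).card = z / ∏ p ∈ S, p := by
      rw [← Nat.Ioc_filter_dvd_card_eq_div]
      congr 1
    rw [h5]
    have := Nat.cast_div_le (α := ℝ) (m := z) (n := ∏ p ∈ S, p)
    push_cast at this
    exact this
  calc _ ≤ z / (∏ p ∈ S, (p : ℝ)) * (∏ p ∈ S, (ww σ p - 1)) := mul_le_mul_of_nonneg_right h4 h3
    _ = z * ((∏ p ∈ S, (ww σ p - 1)) / (∏ p ∈ S, (p : ℝ))) := by ring

lemma EE_nonneg {σ : ℝ} (hσ : 0 < σ) (z : ℕ) : 0 ≤ EE σ z := by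
  unfold EE
  apply Finset.prod_nonneg
  intro p hp
  have := ww_one_le hσ (Nat.prime_of_mem_primesBelow hp).one_lt
  have h2 : 0 ≤ (ww σ p - 1) / p := div_nonneg (by linarith) (by positivity)
  linarith

lemma dyadic_bound {σ : ℝ} (hσ : 0 < σ) (k n : ℕ) (hk : 1 ≤ k) (hn : 1 ≤ n) (J : ℕ) :
    (((Finset.Icc 1 n).filter (fun x : ℕ => (k : ℝ) * jf σ x < (n : ℝ) ^ σ ∧
      n < x * 2 ^ J)).card : ℝ) ≤ J * (2 * n * EE σ n / (k : ℝ) ^ (1 / σ)) := by
  have hkr : (0 : ℝ) < k := by exact_mod_cast hk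
  have hnr : (0 : ℝ) < n := by exact_mod_cast hn
  set T := (k : ℝ) ^ (1 / σ) with hT
  have hTpos : 0 < T := Real.rpow_pos_of_pos hkr _
  induction J with
  | zero =>
    have : (Finset.Icc 1 n).filter (fun x : ℕ => (k : ℝ) * jf σ x < (n : ℝ) ^ σ ∧
      n < x * 2 ^ 0) = ∅ := by
      rw [Finset.filter_eq_empty_iff]
      intro x hx
      rw [Finset.mem_Icc] at hx
      rw [pow_zero, mul_one]
      omega
    rw [this]; simp
  | succ J ih =>
    set D := (Finset.Icc 1 (n / 2 ^ J)).filter (fun x : ℕ => (k : ℝ) * jf σ x < (n : ℝ) ^ σ ∧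
      n < x * 2 ^ (J + 1)) with hD
    have hsub : (Finset.Icc 1 n).filter (fun x : ℕ => (k : ℝ) * jf σ x < (n : ℝ) ^ σ ∧
        n < x * 2 ^ (J + 1)) ⊆ (Finset.Icc 1 n).filter (fun x : ℕ =>
        (k : ℝ) * jf σ x < (n : ℝ) ^ σ ∧ n < x * 2 ^ J) ∪ D := by
      intro x hx
      rw [Finset.mem_filter, Finset.mem_Icc] at hx
      rw [Finset.mem_union, hD, Finset.mem_filter, Finset.mem_filter, Finset.mem_Icc,
        Finset.mem_Icc]
      by_cases h : n < x * 2 ^ J
      · left; exact ⟨hx.1, hx.2.1, h⟩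
      · right
        push Not at h
        refine ⟨⟨hx.1.1, ?_⟩, hx.2⟩
        rw [Nat.le_div_iff_mul_le (by positivity)]
        exact h
    have hDc : (D.card : ℝ) ≤ 2 * n * EE σ n / T := by
      have h1 : (D.card : ℝ) * (T / 2 ^ (J + 1)) ≤ ((n / 2 ^ J : ℕ) : ℝ) * EE σ n := by
        calc (D.card : ℝ) * (T / 2 ^ (J + 1)) = ∑ x ∈ D, T / 2 ^ (J + 1) := by
              rw [Finset.sum_const, nsmul_eq_mul]
          _ ≤ ∑ x ∈ D, VV σ x := by
              refine Finset.sum_le_sum fun x hx => ?_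
              rw [hD, Finset.mem_filter, Finset.mem_Icc] at hx
              have h2 := compl_bound hσ hk hx.1.1 hx.2.1
              rw [← hT] at h2
              have h3 : (n : ℝ) < x * 2 ^ (J + 1) := by exact_mod_cast hx.2.2
              rw [div_le_iff₀ (by positivity)]
              have h4 : 0 < VV σ x := by
                by_contra hcon
                push Not at hcon
                have h5 : VV σ x * n ≤ 0 := mul_nonpos_of_nonpos_of_nonneg hcon hnr.le
                have h6 : 0 ≤ T * x := by positivity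
                linarith
              have hx0 : (0 : ℝ) < x := by exact_mod_cast hx.1.1
              have h7 : T * x < VV σ x * 2 ^ (J + 1) * x := by
                calc T * x < VV σ x * n := h2
                  _ < VV σ x * (x * 2 ^ (J + 1)) := mul_lt_mul_of_pos_left h3 h4
                  _ = _ := by ring
              exact (lt_of_mul_lt_mul_right h7 hx0.le).le
          _ ≤ ∑ x ∈ Finset.Icc 1 (n / 2 ^ J), VV σ x := by
              apply Finset.sum_le_sum_of_subset_of_nonneg (Finset.filter_subset _ _)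
              intro x _ _
              unfold VV
              apply Finset.prod_nonneg
              intro p hp
              have := ww_one_le hσ (Nat.prime_of_mem_primeFactors hp).one_lt
              linarith
          _ ≤ _ := sum_VV_le hσ _ _ (Nat.div_le_self _ _)
      have h8 : ((n / 2 ^ J : ℕ) : ℝ) ≤ n / 2 ^ J := by
        have := Nat.cast_div_le (α := ℝ) (m := n) (n := 2 ^ J)
        push_cast at this; exact this
      have hE := EE_nonneg hσ n
      rw [le_div_iff₀ hTpos]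
      have h9 : (D.card : ℝ) * (T / 2 ^ (J + 1)) ≤ (n / 2 ^ J) * EE σ n :=
        h1.trans (mul_le_mul_of_nonneg_right h8 hE)
      have hp2 : (0 : ℝ) < 2 ^ (J + 1) := by positivity
      have h10 := mul_le_mul_of_nonneg_right h9 hp2.le
      have e1 : (D.card : ℝ) * (T / 2 ^ (J + 1)) * 2 ^ (J + 1) = D.card * T := by
        field_simp
      have e2 : ((n : ℝ) / 2 ^ J) * EE σ n * 2 ^ (J + 1) = 2 * n * EE σ n := by
        rw [pow_succ]; field_simp
      rw [e1, e2] at h10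
      exact h10
    have hcard := (Finset.card_le_card hsub).trans (Finset.card_union_le _ _)
    have hcard' : (((Finset.Icc 1 n).filter (fun x : ℕ => (k : ℝ) * jf σ x < (n : ℝ) ^ σ ∧
        n < x * 2 ^ (J + 1))).card : ℝ) ≤ (((Finset.Icc 1 n).filter (fun x : ℕ =>
        (k : ℝ) * jf σ x < (n : ℝ) ^ σ ∧ n < x * 2 ^ J)).card : ℝ) + D.card := by
      exact_mod_cast hcard
    push_cast
    linarith

/-- Lower bound for `g_k(n)` from Jordan's function. -/
theorem gk_ge_jordan {σ : ℝ} (hσ : 0 < σ) (k n : ℕ) (hk : 1 ≤ k) (hn : 1 ≤ n) (J : ℕ) :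
    (n : ℝ) - J * (2 * n * EE σ n / (k : ℝ) ^ (1 / σ)) - n / 2 ^ J ≤ gk k n := by
  have h1 := le_opt (Finset.filter_subset _ _) (jordan_kmf k n hk hn σ hσ)
  rw [← gk_eq_opt] at h1
  have h2 := dyadic_bound hσ k n hk hn J
  set A := (Finset.Icc 1 n).filter (fun x => (n : ℝ) ^ σ ≤ k * jf σ x) with hA
  set B := (Finset.Icc 1 n).filter (fun x : ℕ => (k : ℝ) * jf σ x < (n : ℝ) ^ σ ∧
      n < x * 2 ^ J) with hB
  have hcov : Finset.Icc 1 n ⊆ A ∪ (B ∪ Finset.Icc 1 (n / 2 ^ J)) := by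
    intro x hx
    have hx' := hx
    rw [Finset.mem_Icc] at hx'
    rw [Finset.mem_union, Finset.mem_union, hA, hB, Finset.mem_filter, Finset.mem_filter]
    by_cases h : (n : ℝ) ^ σ ≤ k * jf σ x
    · left; exact ⟨hx, h⟩
    · right
      push Not at h
      by_cases h' : n < x * 2 ^ J
      · left; exact ⟨hx, h, h'⟩
      · right
        push Not at h'
        rw [Finset.mem_Icc]
        refine ⟨hx'.1, ?_⟩
        rw [Nat.le_div_iff_mul_le (by positivity)]
        exact h'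
  have h3 := Finset.card_le_card hcov
  have h4 := Finset.card_union_le A (B ∪ Finset.Icc 1 (n / 2 ^ J))
  have h5 := Finset.card_union_le B (Finset.Icc 1 (n / 2 ^ J))
  rw [Nat.card_Icc, Nat.add_sub_cancel] at h3 h5
  have h6 : (n : ℝ) ≤ A.card + (B.card + ((n / 2 ^ J : ℕ) : ℝ)) := by
    exact_mod_cast (h3.trans (h4.trans (Nat.add_le_add_left h5 _)))
  have h7 : ((n / 2 ^ J : ℕ) : ℝ) ≤ n / 2 ^ J := by
    have := Nat.cast_div_le (α := ℝ) (m := n) (n := 2 ^ J)
    push_cast at this; exact this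
  have h8 : (A.card : ℝ) ≤ gk k n := by exact_mod_cast h1
  linarith

end Pool.Agent.H96.KMF
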