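import Pool.Agent.H96.KMF.Limit

set_option autoImplicit false

namespace Pool.Agent.H96.KMF

open Finset Filter Topology

lemma cell_card_le (P M j : ℕ) (hP : 0 < P) :
    ((cell P M j).card : ℝ) ≤ 2 ^ (Nat.primesBelow (P + 1)).card * Real.sqrt j := by
  have h1 : cell P M j ⊆ Nat.smoothNumbersUpTo j (P + 1) := by
    intro s hs
    rw [mem_cell] at hs
    rw [Nat.mem_smoothNumbersUpTo]
    refine ⟨hs.1.2, ?_⟩
    rw [Nat.mem_smoothNumbers']
    intro p hp hd
    have := Nat.le_of_dvd hP (hs.2.1.2 p hp hd)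
    omega
  have h2 := (Finset.card_le_card h1).trans (Nat.smoothNumbersUpTo_card_le j (P + 1))
  calc ((cell P M j).card : ℝ) ≤ ((2 ^ (Nat.primesBelow (P + 1)).card * Nat.sqrt j : ℕ) : ℝ) := by
        exact_mod_cast h2
    _ = 2 ^ (Nat.primesBelow (P + 1)).card * (Nat.sqrt j : ℝ) := by push_cast; ring
    _ ≤ 2 ^ (Nat.primesBelow (P + 1)).card * Real.sqrt j := by
        apply mul_le_mul_of_nonneg_left _ (by positivity)
        exact Real.nat_sqrt_le_real_sqrt

/-- the constant attached to `P`, `M`. -/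
noncomputable def kap (k P M : ℕ) : ℝ :=
  (Nat.totient P : ℝ) / P * ∑' j : ℕ, (opt k (cell P M j) : ℝ) / (j * (j + 1))

lemma tendsto_GG (k P M : ℕ) (hP : 0 < P) :
    Tendsto (fun n : ℕ => (GG k P M n : ℝ) / n) atTop (𝓝 (kap k P M)) := by
  have := tendsto_sum (fun j => (opt k (cell P M j) : ℝ)) (2 ^ (Nat.primesBelow (P + 1)).card)
    (by positivity) (fun j => by positivity) (fun j => by
      have h1 : (opt k (cell P M j) : ℝ) ≤ ((cell P M j).card : ℝ) := by
        exact_mod_cast opt_le_card k _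
      exact h1.trans (cell_card_le P M j hP)) P hP
  unfold kap
  refine this.congr fun n => ?_
  unfold GG
  push_cast
  rfl

lemma gk_bounds (k P M n : ℕ) (hM : 1 ≤ M) (hP : ∀ p, p.Prime → p < M → p ∣ P) :
    (GG k P M n : ℝ) / n ≤ (gk k n : ℝ) / n ∧
    (gk k n : ℝ) / n ≤ (GG k P M n : ℝ) / n + 1 / M := by
  have h1 : (GG k P M n : ℝ) ≤ gk k n := by exact_mod_cast GG_le_gk k P M n hP
  have h2 : (gk k n : ℝ) ≤ GG k P M n + ((n / M : ℕ) : ℝ) := by
    exact_mod_cast gk_le_GG k P M n hM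
  rcases Nat.eq_zero_or_pos n with rfl | hn
  · simp
  have hnr : (0 : ℝ) < n := by exact_mod_cast hn
  refine ⟨div_le_div_of_nonneg_right h1 hnr.le, ?_⟩
  have h3 : ((n / M : ℕ) : ℝ) ≤ (n : ℝ) / M := Nat.cast_div_le
  rw [div_le_iff₀ hnr, add_mul, div_mul_cancel₀ _ hnr.ne', one_div_mul_eq_div]
  linarith

/-- Main theorem: the limit exists and is computable. -/
theorem exists_limit (k : ℕ) :
    ∃ c : ℝ, Tendsto (fun n : ℕ => (gk k n : ℝ) / n) atTop (𝓝 c) ∧
      ∀ P M : ℕ, 0 < P → 1 ≤ M → (∀ p, p.Prime → p < M → p ∣ P) →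
        kap k P M ≤ c ∧ c ≤ kap k P M + 1 / M := by
  have hcauchy : CauchySeq (fun n : ℕ => (gk k n : ℝ) / n) := by
    rw [Metric.cauchySeq_iff']
    intro ε hε
    obtain ⟨M, hM⟩ := exists_nat_gt (4 / ε)
    have hM0 : (0 : ℝ) < M := lt_trans (by positivity) hM
    have hM1 : 1 ≤ M := by exact_mod_cast hM0
    have hMε : (1 : ℝ) / M < ε / 4 := by
      rw [div_lt_div_iff₀ hM0 (by norm_num)]
      rw [div_lt_iff₀ hε] at hM
      linarith
    have hPp : ∀ p, p.Prime → p < M → p ∣ M.factorial := fun p hp hlt =>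
      (Nat.Prime.dvd_factorial hp).mpr hlt.le
    obtain ⟨N, hN⟩ := (Metric.tendsto_atTop.mp (tendsto_GG k M.factorial M
      (Nat.factorial_pos M))) (ε / 4) (by positivity)
    refine ⟨N, fun n hn => ?_⟩
    have a1 := hN n hn
    have a2 := hN N le_rfl
    have b1 := gk_bounds k M.factorial M n hM1 hPp
    have b2 := gk_bounds k M.factorial M N hM1 hPp
    rw [Real.dist_eq, abs_lt] at *
    constructor <;> linarith [a1.1, a1.2, a2.1, a2.2, b1.1, b1.2, b2.1, b2.2]
  obtain ⟨c, hc⟩ := cauchySeq_tendsto_of_complete hcauchy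
  refine ⟨c, hc, fun P M hP hM hPM => ⟨?_, ?_⟩⟩
  · exact le_of_tendsto_of_tendsto' (tendsto_GG k P M hP) hc
      fun n => (gk_bounds k P M n hM hPM).1
  · exact le_of_tendsto_of_tendsto' hc ((tendsto_GG k P M hP).add_const (1 / (M : ℝ)))
      fun n => (gk_bounds k P M n hM hPM).2

end Pool.Agent.H96.KMF
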