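import Pool.Agent.H96.KMF.Upper
import Pool.Agent.H96.KMF.ESum

/-!
# The limit density of `k`-multiple-free sets for large `k`
-/

set_option autoImplicit false

namespace Pool.Agent.H96.KMF

open Finset Filter Topology

/-- Upper bound for `-log (1 - c_k)`. -/
lemma large_upper {ℓ : ℝ} (h1 : 100 ≤ ℓ) (h2 : Real.log (Real.log ℓ) + Real.log 4 ≤
      0.1 * Real.log ℓ) (h3 : Real.log (5 * (ℓ * Real.log ℓ)) ≤ 0.1 * (ℓ * Real.log ℓ))
    (h4 : Real.log ℓ ≤ ℓ / 10) (h5 : 1 ≤ Real.log ℓ)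
    (k : ℕ) (hk : Real.log k = ℓ) (c : ℝ)
    (hc : Tendsto (fun n : ℕ => (gk k n : ℝ) / n) atTop (𝓝 c)) :
    c < 1 ∧ -Real.log (1 - c) * (Real.log 2 / ℓ) ≤ Real.log (ℓ * Real.log ℓ) + 3 := by
  have hℓ : 0 < ℓ := by linarith
  have hl2 : 0 < Real.log 2 := Real.log_pos (by norm_num)
  have hl2a := Real.log_two_gt_d9
  have hl2b := Real.log_two_lt_d9
  have hk0 : 0 < k := by
    rcases Nat.eq_zero_or_pos k with rfl | h
    · simp at hk; linarith
    · exact h
  have hkr : (0 : ℝ) < k := by exact_mod_cast hk0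
  set lam := Real.log ℓ with hlam
  set y := ℓ * lam with hy
  have hy1 : 100 ≤ y := by rw [hy]; nlinarith
  have hy0 : 0 < y := by linarith
  have hlogy : Real.log y = lam + Real.log lam := by
    rw [hy, Real.log_mul hℓ.ne' (by linarith)]
  have hmu : 0 ≤ Real.log lam := Real.log_nonneg h5
  set X := ⌊4 * y⌋₊ with hX
  set r := ⌈ℓ / Real.log 2⌉₊ + 1 with hr
  have hX4 : (X : ℝ) ≤ 4 * y := Nat.floor_le (by linarith)
  have hX5 : 4 * y - 1 < X := by
    have := Nat.lt_floor_add_one (4 * y); rw [← hX] at this; linarith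
  have hX1 : (1 : ℝ) < X := by linarith
  have hX0 : (0 : ℝ) < X := by linarith
  have hl4 : Real.log 4 ≤ 1.4 := by
    rw [show (4 : ℝ) = 2 ^ 2 by norm_num, Real.log_pow]; push_cast; linarith
  have hlogX : Real.log X ≤ Real.log 4 + Real.log y := by
    rw [← Real.log_mul (by norm_num) hy0.ne']
    exact Real.log_le_log hX0 hX4
  have hlogX2 : Real.log X ≤ 1.1 * lam := by rw [hlogy] at hlogX; linarith
  have hlogX0 : 0 < Real.log X := Real.log_pos hX1
  have hr1 : ℓ / Real.log 2 < r := by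
    rw [hr]; push_cast
    have := Nat.le_ceil (ℓ / Real.log 2)
    linarith
  have hr2 : (r : ℝ) < ℓ / Real.log 2 + 2 := by
    rw [hr]; push_cast
    have := Nat.ceil_lt_add_one (by positivity : 0 ≤ ℓ / Real.log 2)
    linarith
  have hr3 : ℓ / Real.log 2 ≤ 1.45 * ℓ := by
    rw [div_le_iff₀ hl2]; nlinarith
  have hpow : k < 2 ^ r := by
    have e1 : (k : ℝ) < 2 ^ r := by
      have e2 : (2 : ℝ) ^ r = Real.exp (r * Real.log 2) := by
        rw [Real.exp_nat_mul, Real.exp_log (by norm_num)]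
      rw [e2, ← Real.exp_log hkr, hk]
      apply Real.exp_lt_exp.mpr
      rw [div_lt_iff₀ hl2] at hr1
      exact hr1
    exact_mod_cast e1
  have hπ : r ≤ Nat.primeCounting X := by
    have e1 := Chebyshev.pi_ge X
    have e2 : Real.log ((X : ℝ) + 1) ≤ 0.1 * y := by
      refine le_trans (Real.log_le_log (by linarith) ?_) h3
      linarith
    have e3 : (r : ℝ) ≤ (X * Real.log 2 - Real.log (X + 1)) / Real.log X := by
      rw [le_div_iff₀ hlogX0]
      have e4 : 2.6 * y ≤ X * Real.log 2 - Real.log (X + 1) := by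
        have : 2.7 * y ≤ X * Real.log 2 := by
          have a1 : 3.99 * y ≤ X := by linarith
          nlinarith
        linarith
      have e5 : (r : ℝ) * Real.log X ≤ (1.45 * ℓ + 2) * (1.1 * lam) := by
        apply mul_le_mul (by linarith) hlogX2 hlogX0.le (by linarith)
      refine e5.trans (le_trans ?_ e4)
      rw [hy]
      nlinarith
    exact_mod_cast e3.trans e1
  have hmain := one_sub_ge k r X hpow (by exact_mod_cast hX1.le) hπ c hc
  have hpos : 0 < 1 - c := lt_of_lt_of_le (by positivity) hmain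
  refine ⟨by linarith, ?_⟩
  have hlog : -Real.log (1 - c) ≤ (r + 1) * Real.log X := by
    have e1 := Real.log_le_log (by positivity) hmain
    rw [one_div, Real.log_inv, Real.log_pow] at e1
    push_cast at e1
    linarith
  have hσ : 0 < Real.log 2 / ℓ := by positivity
  calc -Real.log (1 - c) * (Real.log 2 / ℓ) ≤ ((r + 1) * Real.log X) * (Real.log 2 / ℓ) :=
        mul_le_mul_of_nonneg_right hlog hσ.le
    _ ≤ ((ℓ / Real.log 2 + 3) * Real.log X) * (Real.log 2 / ℓ) := by
        apply mul_le_mul_of_nonneg_right _ hσ.le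
        apply mul_le_mul_of_nonneg_right _ hlogX0.le
        linarith
    _ = Real.log X + 3 * Real.log 2 * Real.log X / ℓ := by field_simp
    _ ≤ (1.4 + Real.log y) + 1 := by
        apply add_le_add
        · linarith
        · rw [div_le_one hℓ]
          have e1 : 3 * Real.log 2 * Real.log X ≤ 3 * 0.7 * (1.1 * lam) := by
            apply mul_le_mul (by linarith) hlogX2 hlogX0.le (by norm_num)
          nlinarith
    _ ≤ _ := by linarith

/-- Lower bound for `-log (1 - c_k)`. -/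
lemma large_lower {ℓ C : ℝ} (hC : 0 < C) (h1 : 100 ≤ ℓ)
    (hE : ∀ z : ℕ, EE (Real.log 2 / Real.log (ℓ * Real.log ℓ)) z ≤
      Real.exp (C * ((ℓ * Real.log ℓ) / Real.log (ℓ * Real.log ℓ))))
    (h4 : Real.log ℓ ≤ ℓ / 10) (h5 : 1 ≤ Real.log ℓ) (h6 : 10 * ℓ ^ 2 ≤ Real.exp ℓ)
    (k : ℕ) (hk : Real.log k = ℓ) (c : ℝ) (hc1 : c < 1)
    (hc : Tendsto (fun n : ℕ => (gk k n : ℝ) / n) atTop (𝓝 c)) :
    Real.log (ℓ * Real.log ℓ) - (C + 1) ≤ -Real.log (1 - c) * (Real.log 2 / ℓ) := by
  have hℓ : 0 < ℓ := by linarith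
  have hl2 : 0 < Real.log 2 := Real.log_pos (by norm_num)
  have hl2a := Real.log_two_gt_d9
  have hl2b := Real.log_two_lt_d9
  have hk0 : 0 < k := by
    rcases Nat.eq_zero_or_pos k with rfl | h
    · simp at hk; linarith
    · exact h
  have hkr : (0 : ℝ) < k := by exact_mod_cast hk0
  set lam := Real.log ℓ with hlam
  set y := ℓ * lam with hy
  have hy1 : 100 ≤ y := by rw [hy]; nlinarith
  have hy0 : 0 < y := by linarith
  have hlogy : Real.log y = lam + Real.log lam := by
    rw [hy, Real.log_mul hℓ.ne' (by linarith)]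
  have hmu : 0 ≤ Real.log lam := Real.log_nonneg h5
  set L := Real.log y with hL
  have hL1 : lam ≤ L := by linarith
  have hL0 : 0 < L := by linarith
  have hL2 : L ≤ ℓ := by
    have e1 : Real.log lam ≤ lam := by
      have := Real.log_le_sub_one_of_pos (by linarith : 0 < lam); linarith
    linarith
  have hyL : y / L ≤ ℓ := by
    rw [div_le_iff₀ hL0, hy]
    exact mul_le_mul_of_nonneg_left hL1 hℓ.le
  set σ := Real.log 2 / L with hσ
  have hσ0 : 0 < σ := by positivity
  set T := (k : ℝ) ^ (1 / σ) with hT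
  have hTe : T = Real.exp (ℓ * L / Real.log 2) := by
    rw [hT, Real.rpow_def_of_pos hkr, hk, hσ]; congr 1; field_simp
  have hT0 : 0 < T := by rw [hTe]; exact Real.exp_pos _
  set J := ⌈ℓ * L / (Real.log 2) ^ 2⌉₊ with hJ
  have hJ1 : ℓ * L / (Real.log 2) ^ 2 ≤ J := Nat.le_ceil _
  have hJ2 : (J : ℝ) < ℓ * L / (Real.log 2) ^ 2 + 1 := Nat.ceil_lt_add_one (by positivity)
  have hJ3 : (1 : ℝ) ≤ J := by
    have : (1 : ℝ) ≤ ℓ * L / (Real.log 2) ^ 2 := by
      rw [le_div_iff₀ (by positivity)]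
      nlinarith
    linarith
  have h2J : T ≤ 2 ^ J := by
    have e2 : (2 : ℝ) ^ J = Real.exp (J * Real.log 2) := by
      rw [Real.exp_nat_mul, Real.exp_log (by norm_num)]
    rw [e2, hTe]
    apply Real.exp_le_exp.mpr
    calc ℓ * L / Real.log 2 = (ℓ * L / (Real.log 2) ^ 2) * Real.log 2 := by field_simp
      _ ≤ J * Real.log 2 := mul_le_mul_of_nonneg_right hJ1 hl2.le
  have hE' : ∀ z : ℕ, EE σ z ≤ Real.exp (C * ℓ) := fun z => (hE z).trans
    (Real.exp_le_exp.mpr (mul_le_mul_of_nonneg_left hyL hC.le))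
  have hgk : ∀ n : ℕ, 1 ≤ n → 1 - 3 * J * Real.exp (C * ℓ) / T ≤ (gk k n : ℝ) / n := by
    intro n hn
    have hnr : (0 : ℝ) < n := by exact_mod_cast hn
    have e1 := gk_ge_jordan hσ0 k n hk0 hn J
    rw [← hT] at e1
    rw [le_div_iff₀ hnr]
    refine le_trans ?_ e1
    have e2 : (n : ℝ) / 2 ^ J ≤ n / T := div_le_div_of_nonneg_left hnr.le hT0 h2J
    have e3 : (J : ℝ) * (2 * n * EE σ n / T) ≤ J * (2 * n * Real.exp (C * ℓ) / T) := by
      apply mul_le_mul_of_nonneg_left _ (by positivity)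
      apply div_le_div_of_nonneg_right _ hT0.le
      exact mul_le_mul_of_nonneg_left (hE' n) (by positivity)
    have e4 : (n : ℝ) / T ≤ n * (J * Real.exp (C * ℓ)) / T := by
      apply div_le_div_of_nonneg_right _ hT0.le
      have : 1 ≤ Real.exp (C * ℓ) := Real.one_le_exp (by positivity)
      have : 1 ≤ J * Real.exp (C * ℓ) := one_le_mul_of_one_le_of_one_le hJ3 this
      nlinarith
    have e5 : (1 - 3 * J * Real.exp (C * ℓ) / T) * n = n - J * (2 * n * Real.exp (C * ℓ) / T) -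
        n * (J * Real.exp (C * ℓ)) / T := by ring
    rw [e5]
    linarith
  have hclow : 1 - 3 * J * Real.exp (C * ℓ) / T ≤ c := by
    refine ge_of_tendsto hc ?_
    filter_upwards [eventually_ge_atTop 1] with n hn
    exact hgk n hn
  have hcc : 1 - c ≤ 3 * J * Real.exp (C * ℓ) / T := by linarith
  have hlog := Real.log_le_log (by linarith : 0 < 1 - c) hcc
  have h3J : Real.log (3 * J) ≤ ℓ := by
    rw [Real.log_le_iff_le_exp (by linarith)]
    refine le_trans ?_ h6
    have e1 : ℓ * L / (Real.log 2) ^ 2 ≤ 2.1 * ℓ ^ 2 := by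
      rw [div_le_iff₀ (by positivity)]
      have e2 : (0.693 : ℝ) ^ 2 ≤ (Real.log 2) ^ 2 :=
        pow_le_pow_left₀ (by norm_num) (by linarith) 2
      have e3 : ℓ * L ≤ ℓ ^ 2 := by nlinarith
      have e4 : 0 < ℓ ^ 2 := by positivity
      have e5 : (1 : ℝ) ≤ 2.1 * (Real.log 2) ^ 2 := by
        norm_num at e2 ⊢
        linarith
      calc ℓ * L ≤ ℓ ^ 2 * 1 := by linarith
        _ ≤ ℓ ^ 2 * (2.1 * (Real.log 2) ^ 2) := mul_le_mul_of_nonneg_left e5 e4.le
        _ = 2.1 * ℓ ^ 2 * Real.log 2 ^ 2 := by ring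
    have e6 : (1 : ℝ) ≤ ℓ ^ 2 := one_le_pow₀ (by linarith)
    linarith
  have e6 : Real.log (3 * J * Real.exp (C * ℓ) / T) =
      Real.log (3 * J) + C * ℓ - ℓ * L / Real.log 2 := by
    rw [Real.log_div (by positivity) hT0.ne', Real.log_mul (by positivity) (Real.exp_pos _).ne',
      Real.log_exp, hTe, Real.log_exp]
  rw [e6] at hlog
  have e7 : ℓ * L / Real.log 2 - (C + 1) * ℓ ≤ -Real.log (1 - c) := by linarith
  have hσ' : 0 < Real.log 2 / ℓ := by positivity
  have e8 := mul_le_mul_of_nonneg_right e7 hσ'.le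
  refine le_trans ?_ e8
  have e9 : (ℓ * L / Real.log 2 - (C + 1) * ℓ) * (Real.log 2 / ℓ) =
      L - (C + 1) * Real.log 2 := by field_simp
  rw [e9]
  nlinarith

/-- The limit density for large `k`. -/
theorem large_k : ∃ C : ℝ, ∀ᶠ k : ℕ in atTop, ∀ c : ℝ,
    Tendsto (fun n : ℕ => (gk k n : ℝ) / n) atTop (𝓝 c) →
    c < 1 ∧ |-Real.log (1 - c) * (Real.log 2 / Real.log k) -
      (Real.log (Real.log k) + Real.log (Real.log (Real.log k)))| ≤ C := by
  obtain ⟨C, hC, hE⟩ := exists_EE_bound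
  have hlog : Tendsto (fun k : ℕ => Real.log k) atTop atTop :=
    Real.tendsto_log_atTop.comp tendsto_natCast_atTop_atTop
  have hll : Tendsto (fun x : ℝ => x * Real.log x) atTop atTop :=
    tendsto_id.atTop_mul_atTop₀ Real.tendsto_log_atTop
  have hlitlog := Real.isLittleO_log_id_atTop.bound (by norm_num : (0 : ℝ) < 1 / 20)
  have a0 : ∀ᶠ x : ℝ in atTop, Real.log x ≤ x / 20 := by
    filter_upwards [hlitlog, eventually_ge_atTop (1 : ℝ)] with x hx hx1
    rw [Real.norm_eq_abs, Real.norm_eq_abs, id, abs_of_nonneg (by linarith : (0 : ℝ) ≤ x)] at hx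
    linarith [le_abs_self (Real.log x)]
  have a1 : ∀ᶠ x : ℝ in atTop, Real.log x + Real.log 4 ≤ 0.1 * x := by
    filter_upwards [a0, eventually_ge_atTop (20 * Real.log 4)] with x hx hx1
    linarith
  have a2 : ∀ᶠ x : ℝ in atTop, Real.log (5 * x) ≤ 0.1 * x := by
    filter_upwards [a0, eventually_ge_atTop (20 * Real.log 5), eventually_gt_atTop 0] with x hx
      hx1 hx2
    rw [Real.log_mul (by norm_num) hx2.ne']
    linarith
  have a3 : ∀ᶠ x : ℝ in atTop, 10 * x ^ 2 ≤ Real.exp x := by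
    have := (Real.isLittleO_pow_exp_atTop (n := 2)).bound (by norm_num : (0 : ℝ) < 1 / 10)
    filter_upwards [this] with x hx
    rw [Real.norm_eq_abs, Real.norm_eq_abs, abs_of_nonneg (by positivity : (0 : ℝ) ≤ x ^ 2),
      abs_of_pos (Real.exp_pos x)] at hx
    linarith
  refine ⟨C + 1 + 3, ?_⟩
  filter_upwards [hlog.eventually (eventually_ge_atTop 100),
    hlog.eventually (Real.tendsto_log_atTop.eventually a1),
    hlog.eventually (hll.eventually a2),
    hlog.eventually a0, hlog.eventually a3,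
    hlog.eventually (hll.eventually hE),
    hlog.eventually (Real.tendsto_log_atTop.eventually (eventually_ge_atTop 1))] with k b1 b2 b3
      b4 b5 b6 b7 c hc
  have hℓ : 0 < Real.log k := by linarith
  have u := large_upper b1 b2 b3 (by linarith) b7 k rfl c hc
  have l := large_lower hC b1 b6 (by linarith) b7 b5 k rfl c u.1 hc
  have e : Real.log (Real.log k * Real.log (Real.log k)) =
      Real.log (Real.log k) + Real.log (Real.log (Real.log k)) :=
    Real.log_mul hℓ.ne' (by linarith)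
  rw [e] at u l
  refine ⟨u.1, ?_⟩
  rw [abs_le]
  constructor <;> linarith [u.2]

end Pool.Agent.H96.KMF
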