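import Pool.Agent.H96.KMF.Basic

set_option autoImplicit false

namespace Pool.Agent.H96.KMF

open Finset Filter Topology

/-- number of `m ≤ y` coprime to `P` -/
def cnt (P y : ℕ) : ℕ := (rgh P y).card

lemma cnt_add_period (P y : ℕ) : cnt P (y + P) = cnt P y + Nat.totient P := by
  unfold cnt rgh
  have h1 : Finset.Icc 1 (y + P) = Finset.Icc 1 y ∪ Finset.Ico (y + 1) (y + 1 + P) := by
    ext x; simp only [Finset.mem_union, Finset.mem_Icc, Finset.mem_Ico]; omega
  rw [h1, Finset.filter_union, Finset.card_union_of_disjoint, Nat.filter_coprime_Ico_eq_totient]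
  rw [Finset.disjoint_left]
  intro x hx hx'
  rw [Finset.mem_filter, Finset.mem_Icc] at hx
  rw [Finset.mem_filter, Finset.mem_Ico] at hx'
  omega

lemma cnt_mono (P : ℕ) {x y : ℕ} (h : x ≤ y) : cnt P x ≤ cnt P y := by
  unfold cnt rgh
  apply Finset.card_le_card
  apply Finset.filter_subset_filter
  exact Finset.Icc_subset_Icc_right h

lemma cnt_le (P y : ℕ) : cnt P y ≤ y := by
  unfold cnt rgh
  refine (Finset.card_filter_le _ _).trans ?_
  simp

lemma cnt_mul_period (P q r : ℕ) : cnt P (r + q * P) = cnt P r + q * Nat.totient P := by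
  induction q with
  | zero => simp
  | succ q ih =>
    rw [show r + (q + 1) * P = (r + q * P) + P by ring, cnt_add_period, ih]; ring

/-- `|cnt P y - (φ(P)/P) y| ≤ P` -/
lemma cnt_approx (P y : ℕ) (hP : 0 < P) :
    |(cnt P y : ℝ) - (Nat.totient P : ℝ) / P * y| ≤ P := by
  have hy : y = y % P + (y / P) * P := by rw [mul_comm]; exact (Nat.mod_add_div y P).symm
  have h1 : cnt P y = cnt P (y % P) + (y / P) * Nat.totient P := by
    conv_lhs => rw [hy]
    exact cnt_mul_period P _ _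
  have hPr : (0 : ℝ) < P := by exact_mod_cast hP
  have h2 : (y : ℝ) = (y % P : ℕ) + ((y / P : ℕ) : ℝ) * P := by
    exact_mod_cast hy
  have h3 : (cnt P y : ℝ) - (Nat.totient P : ℝ) / P * y =
      (cnt P (y % P) : ℝ) - (Nat.totient P : ℝ) / P * ((y % P : ℕ) : ℝ) := by
    rw [h1]
    conv_lhs => rw [h2]
    push_cast
    field_simp
    ring
  rw [h3]
  have hr : y % P < P := Nat.mod_lt _ hP
  have hr' : ((y % P : ℕ) : ℝ) ≤ P := by exact_mod_cast hr.le
  have hc : (cnt P (y % P) : ℝ) ≤ P := by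
    exact_mod_cast (cnt_le P _).trans hr.le
  have ht : (Nat.totient P : ℝ) / P ≤ 1 := by
    rw [div_le_one hPr]; exact_mod_cast Nat.totient_le P
  have ht0 : 0 ≤ (Nat.totient P : ℝ) / P := by positivity
  have h4 : (Nat.totient P : ℝ) / P * ((y % P : ℕ) : ℝ) ≤ P := by
    calc (Nat.totient P : ℝ) / P * ((y % P : ℕ) : ℝ) ≤ 1 * P := by
          apply mul_le_mul ht hr' (by positivity) (by norm_num)
      _ = P := one_mul _
  have h5 : 0 ≤ (Nat.totient P : ℝ) / P * ((y % P : ℕ) : ℝ) := by positivity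
  have h6 : (0 : ℝ) ≤ (cnt P (y % P) : ℝ) := by positivity
  rw [abs_le]
  constructor <;> linarith

lemma tendsto_floor_div (j : ℕ) (hj : 0 < j) :
    Tendsto (fun n : ℕ => ((n / j : ℕ) : ℝ) / n) atTop (𝓝 (1 / j)) := by
  have hjr : (0 : ℝ) < j := by exact_mod_cast hj
  have h0 : Tendsto (fun n : ℕ => (1 : ℝ) / n) atTop (𝓝 0) := tendsto_one_div_atTop_nhds_zero_nat
  have hlow : Tendsto (fun n : ℕ => (1 : ℝ) / j - 1 / n) atTop (𝓝 (1 / j)) := by
    simpa using (tendsto_const_nhds (x := (1 : ℝ) / j)).sub h0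
  refine tendsto_of_tendsto_of_tendsto_of_le_of_le' hlow tendsto_const_nhds ?_ ?_
  · filter_upwards [eventually_gt_atTop 0] with n hn
    have hnr : (0 : ℝ) < n := by exact_mod_cast hn
    have h1 : (n : ℝ) < ((n / j : ℕ) : ℝ) * j + j := by
      have := Nat.lt_div_mul_add (a := n) hj
      exact_mod_cast this
    rw [le_div_iff₀ hnr, sub_mul, one_div_mul_cancel hnr.ne', div_mul_eq_mul_div, one_mul,
      sub_le_iff_le_add, div_le_iff₀ hjr]
    nlinarith
  · filter_upwards [eventually_gt_atTop 0] with n hn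
    have hnr : (0 : ℝ) < n := by exact_mod_cast hn
    have h1 : ((n / j : ℕ) : ℝ) * j ≤ n := by
      exact_mod_cast Nat.div_mul_le_self n j
    rw [div_le_div_iff₀ hnr hjr]
    linarith

lemma tendsto_cnt_div (P j : ℕ) (hP : 0 < P) (hj : 0 < j) :
    Tendsto (fun n : ℕ => (cnt P (n / j) : ℝ) / n) atTop
      (𝓝 ((Nat.totient P : ℝ) / P * (1 / j))) := by
  have h1 := (tendsto_floor_div j hj).const_mul ((Nat.totient P : ℝ) / P)
  have h0 : Tendsto (fun n : ℕ => (P : ℝ) * ((1 : ℝ) / n)) atTop (𝓝 0) := by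
    simpa using tendsto_one_div_atTop_nhds_zero_nat.const_mul (P : ℝ)
  have h2 : Tendsto (fun n : ℕ => (cnt P (n / j) : ℝ) / n -
      (Nat.totient P : ℝ) / P * (((n / j : ℕ) : ℝ) / n)) atTop (𝓝 0) := by
    refine squeeze_zero_norm (fun n => ?_) h0
    rcases Nat.eq_zero_or_pos n with rfl | hn
    · simp
    · have hnr : (0 : ℝ) < n := by exact_mod_cast hn
      have := cnt_approx P (n / j) hP
      rw [Real.norm_eq_abs]
      have e : (cnt P (n / j) : ℝ) / n - (Nat.totient P : ℝ) / P * (((n / j : ℕ) : ℝ) / n) =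
          ((cnt P (n / j) : ℝ) - (Nat.totient P : ℝ) / P * ((n / j : ℕ) : ℝ)) * (1 / n) := by
        ring
      rw [e, abs_mul, abs_of_pos (by positivity : (0 : ℝ) < 1 / n)]
      exact mul_le_mul_of_nonneg_right this (by positivity)
  have h3 := h2.add h1
  simpa using h3

/-- partial remainder -/
noncomputable def RR (h : ℕ → ℝ) (P n J : ℕ) : ℝ := ∑ m ∈ rgh P (n / (J + 1)), h (n / m)

lemma RR_step (h : ℕ → ℝ) (P n J : ℕ) :
    RR h P n J = RR h P n (J + 1) +
      h (J + 1) * ((cnt P (n / (J + 1)) : ℝ) - cnt P (n / (J + 2))) := by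
  unfold RR
  have hsub : rgh P (n / (J + 1 + 1)) ⊆ rgh P (n / (J + 1)) := by
    intro m hm
    rw [mem_rgh] at hm ⊢
    refine ⟨⟨hm.1.1, hm.1.2.trans ?_⟩, hm.2⟩
    exact Nat.div_le_div_left (by omega) (by omega)
  rw [← Finset.sum_sdiff hsub, add_comm]
  congr 1
  have hconst : ∀ m ∈ rgh P (n / (J + 1)) \ rgh P (n / (J + 1 + 1)), h (n / m) = h (J + 1) := by
    intro m hm
    rw [Finset.mem_sdiff, mem_rgh, mem_rgh] at hm
    obtain ⟨⟨⟨h1, h2⟩, h3⟩, h4⟩ := hm
    have h5 : n / (J + 1 + 1) < m := by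
      by_contra hc
      push Not at hc
      exact h4 ⟨⟨h1, hc⟩, h3⟩
    have h6 : n / m = J + 1 := by
      apply Nat.div_eq_of_lt_le
      · rw [mul_comm]
        have := (Nat.le_div_iff_mul_le (by omega)).mp h2
        exact this
      · have := (Nat.div_lt_iff_lt_mul (by omega)).mp h5
        calc n < m * (J + 1 + 1) := this
          _ = (J + 1 + 1) * m := by ring
    rw [h6]
  rw [Finset.sum_congr rfl hconst, Finset.sum_const, nsmul_eq_mul, mul_comm]
  congr 1
  have hc := Finset.card_sdiff_add_card_eq_card hsub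
  unfold cnt
  rw [eq_sub_iff_add_eq]
  exact_mod_cast hc

lemma RR_zero (h : ℕ → ℝ) (P n J : ℕ) :
    RR h P n 0 = RR h P n J + ∑ j ∈ Finset.range J,
      h (j + 1) * ((cnt P (n / (j + 1)) : ℝ) - cnt P (n / (j + 2))) := by
  induction J with
  | zero => simp
  | succ J ih =>
    rw [ih, RR_step h P n J, Finset.sum_range_succ]; ring

lemma sum_inv_sqrt_le (K : ℕ) : ∑ m ∈ Finset.Icc 1 K, 1 / Real.sqrt m ≤ 2 * Real.sqrt K := by
  induction K with
  | zero => simp
  | succ K ih =>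
    rw [Finset.sum_Icc_succ_top (by omega)]
    have hK : (0 : ℝ) ≤ K := by positivity
    set a := Real.sqrt K with ha
    set b := Real.sqrt ((K + 1 : ℕ) : ℝ) with hb
    have ha2 : a ^ 2 = K := Real.sq_sqrt hK
    have hb2 : b ^ 2 = K + 1 := by
      rw [hb, Real.sq_sqrt (by positivity)]; push_cast; ring
    have ha0 : 0 ≤ a := Real.sqrt_nonneg _
    have hb0 : 0 < b := Real.sqrt_pos.mpr (by positivity)
    have : 1 / b ≤ 2 * b - 2 * a := by
      rw [div_le_iff₀ hb0]
      nlinarith [sq_nonneg (b - a)]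
    linarith

lemma RR_bound (h : ℕ → ℝ) (C : ℝ) (hC : 0 ≤ C) (h0 : ∀ j, 0 ≤ h j)
    (h1 : ∀ j : ℕ, h j ≤ C * Real.sqrt j) (P n J : ℕ) :
    |RR h P n J| ≤ 2 * C * n / Real.sqrt (J + 1) := by
  unfold RR
  rw [abs_of_nonneg (Finset.sum_nonneg fun m _ => h0 _)]
  have hn : (0 : ℝ) ≤ n := by positivity
  calc ∑ m ∈ rgh P (n / (J + 1)), h (n / m)
      ≤ ∑ m ∈ Finset.Icc 1 (n / (J + 1)), h (n / m) := by
        apply Finset.sum_le_sum_of_subset_of_nonneg
        · unfold rgh; exact Finset.filter_subset _ _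
        · intro m _ _; exact h0 _
    _ ≤ ∑ m ∈ Finset.Icc 1 (n / (J + 1)), C * Real.sqrt n * (1 / Real.sqrt m) := by
        refine Finset.sum_le_sum fun m hm => ?_
        rw [Finset.mem_Icc] at hm
        have hm' : (0 : ℝ) < m := by exact_mod_cast hm.1
        refine (h1 _).trans ?_
        have : Real.sqrt ((n / m : ℕ) : ℝ) ≤ Real.sqrt n * (1 / Real.sqrt m) := by
          rw [mul_one_div, ← Real.sqrt_div hn]
          apply Real.sqrt_le_sqrt
          exact Nat.cast_div_le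
        calc C * Real.sqrt ((n / m : ℕ) : ℝ) ≤ C * (Real.sqrt n * (1 / Real.sqrt m)) :=
              mul_le_mul_of_nonneg_left this hC
          _ = _ := by ring
    _ = C * Real.sqrt n * ∑ m ∈ Finset.Icc 1 (n / (J + 1)), 1 / Real.sqrt m := by
        rw [Finset.mul_sum]
    _ ≤ C * Real.sqrt n * (2 * Real.sqrt ((n / (J + 1) : ℕ) : ℝ)) := by
        apply mul_le_mul_of_nonneg_left (sum_inv_sqrt_le _) (by positivity)
    _ ≤ C * Real.sqrt n * (2 * (Real.sqrt n / Real.sqrt (J + 1))) := by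
        have : Real.sqrt ((n / (J + 1) : ℕ) : ℝ) ≤ Real.sqrt n / Real.sqrt (J + 1) := by
          rw [← Real.sqrt_div hn]
          apply Real.sqrt_le_sqrt
          have := Nat.cast_div_le (α := ℝ) (m := n) (n := J + 1)
          push_cast at this
          exact this
        have h3 : 0 ≤ C * Real.sqrt n := by positivity
        nlinarith
    _ = 2 * C * n / Real.sqrt (J + 1) := by
        have : Real.sqrt n * Real.sqrt n = n := Real.mul_self_sqrt hn
        rw [show C * Real.sqrt n * (2 * (Real.sqrt n / Real.sqrt (J + 1))) =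
          2 * C * (Real.sqrt n * Real.sqrt n) / Real.sqrt (J + 1) by ring, this]

lemma summable_series (h : ℕ → ℝ) (C : ℝ) (h0 : ∀ j, 0 ≤ h j)
    (h1 : ∀ j : ℕ, h j ≤ C * Real.sqrt j) :
    Summable (fun j : ℕ => h j / (j * (j + 1))) := by
  have hs : Summable (fun j : ℕ => C * (1 / (j : ℝ) ^ (3 / 2 : ℝ))) :=
    (Real.summable_one_div_nat_rpow.mpr (by norm_num)).mul_left C
  refine Summable.of_nonneg_of_le (fun j => ?_) (fun j => ?_) hs
  · have := h0 j; positivity
  · rcases Nat.eq_zero_or_pos j with rfl | hj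
    · simp
    · have hjr : (0 : ℝ) < j := by exact_mod_cast hj
      have hC : 0 ≤ C * Real.sqrt j := (h0 j).trans (h1 j)
      calc h j / (j * (j + 1)) ≤ C * Real.sqrt j / (j * (j + 1)) := by
            apply div_le_div_of_nonneg_right (h1 j) (by positivity)
        _ ≤ C * Real.sqrt j / (j * j) := by
            apply div_le_div_of_nonneg_left hC (by positivity)
            nlinarith
        _ = C * (1 / (j : ℝ) ^ (3 / 2 : ℝ)) := by
            have : (j : ℝ) ^ (3 / 2 : ℝ) * Real.sqrt j = j * j := by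
              rw [Real.sqrt_eq_rpow, ← Real.rpow_add hjr]
              norm_num
              ring
            have hs0 : Real.sqrt j ≠ 0 := (Real.sqrt_pos.mpr hjr).ne'
            have hp0 : (j : ℝ) ^ (3 / 2 : ℝ) ≠ 0 := (Real.rpow_pos_of_pos hjr _).ne'
            rw [← this]
            field_simp

/-- The limit theorem for sums over rough numbers. -/
theorem tendsto_sum (h : ℕ → ℝ) (C : ℝ) (hC : 0 ≤ C) (h0 : ∀ j, 0 ≤ h j)
    (h1 : ∀ j : ℕ, h j ≤ C * Real.sqrt j) (P : ℕ) (hP : 0 < P) :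
    Tendsto (fun n : ℕ => (∑ m ∈ rgh P n, h (n / m)) / n) atTop
      (𝓝 ((Nat.totient P : ℝ) / P * ∑' j : ℕ, h j / (j * (j + 1)))) := by
  set ρ : ℝ := (Nat.totient P : ℝ) / P with hρ
  set σ : ℝ := ρ * ∑' j : ℕ, h j / (j * (j + 1)) with hσ
  have hsum := summable_series h C h0 h1
  -- partial sums
  have hpart : ∀ J, Tendsto (fun n : ℕ => (∑ j ∈ Finset.range J,
      h (j + 1) * ((cnt P (n / (j + 1)) : ℝ) - cnt P (n / (j + 2)))) / n) atTop
      (𝓝 (ρ * ∑ j ∈ Finset.range J, h (j + 1) / ((j + 1 : ℕ) * ((j + 1 : ℕ) + 1)))) := by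
    intro J
    have : ∀ n : ℕ, (∑ j ∈ Finset.range J,
        h (j + 1) * ((cnt P (n / (j + 1)) : ℝ) - cnt P (n / (j + 2)))) / n =
        ∑ j ∈ Finset.range J, h (j + 1) * ((cnt P (n / (j + 1)) : ℝ) / n -
          (cnt P (n / (j + 2)) : ℝ) / n) := by
      intro n
      rw [Finset.sum_div]
      refine Finset.sum_congr rfl fun j _ => ?_
      ring
    simp_rw [this]
    rw [Finset.mul_sum]
    apply tendsto_finsetSum
    intro j _
    have t1 := tendsto_cnt_div P (j + 1) hP (by omega)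
    have t2 := tendsto_cnt_div P (j + 2) hP (by omega)
    rw [← hρ] at t1 t2
    have t3 := (t1.sub t2).const_mul (h (j + 1))
    convert t3 using 2
    push_cast
    field_simp
    ring
  have hpartlim : Tendsto (fun J : ℕ => ρ * ∑ j ∈ Finset.range J,
      h (j + 1) / ((j + 1 : ℕ) * ((j + 1 : ℕ) + 1))) atTop (𝓝 σ) := by
    rw [hσ]
    apply Tendsto.const_mul
    have := hsum.hasSum.tendsto_sum_nat
    have h2 := this.comp (tendsto_add_atTop_nat 1)
    refine h2.congr fun J => ?_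
    simp only [Function.comp]
    rw [Finset.sum_range_succ']
    simp
  have hrem : Tendsto (fun J : ℕ => 2 * C / Real.sqrt (J + 1)) atTop (𝓝 0) := by
    have : Tendsto (fun J : ℕ => Real.sqrt ((J : ℝ) + 1)) atTop atTop := by
      apply Real.tendsto_sqrt_atTop.comp
      exact tendsto_atTop_add_const_right _ _ tendsto_natCast_atTop_atTop
    exact Tendsto.const_div_atTop this _
  rw [Metric.tendsto_atTop]
  intro ε hε
  obtain ⟨J, hJ1, hJ2⟩ : ∃ J : ℕ, dist (ρ * ∑ j ∈ Finset.range J,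
      h (j + 1) / ((j + 1 : ℕ) * ((j + 1 : ℕ) + 1))) σ < ε / 3 ∧
      dist (2 * C / Real.sqrt (J + 1)) 0 < ε / 3 := by
    have e1 := (Metric.tendsto_atTop.mp hpartlim) (ε / 3) (by positivity)
    have e2 := (Metric.tendsto_atTop.mp hrem) (ε / 3) (by positivity)
    obtain ⟨N1, hN1⟩ := e1
    obtain ⟨N2, hN2⟩ := e2
    exact ⟨max N1 N2, hN1 _ (le_max_left _ _), hN2 _ (le_max_right _ _)⟩
  obtain ⟨N, hN⟩ := (Metric.tendsto_atTop.mp (hpart J)) (ε / 3) (by positivity)
  refine ⟨max N 1, fun n hn => ?_⟩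
  have hn1 : 1 ≤ n := le_trans (le_max_right _ _) hn
  have hnr : (0 : ℝ) < n := by exact_mod_cast hn1
  have e3 := hN n (le_trans (le_max_left _ _) hn)
  have e4 : (∑ m ∈ rgh P n, h (n / m)) = RR h P n 0 := by
    unfold RR; simp
  rw [e4, RR_zero h P n J, add_div]
  have e5 := RR_bound h C hC h0 h1 P n J
  have e6 : |RR h P n J / n| ≤ 2 * C / Real.sqrt (J + 1) := by
    rw [abs_div, abs_of_pos hnr, div_le_iff₀ hnr]
    calc |RR h P n J| ≤ 2 * C * n / Real.sqrt (J + 1) := e5
      _ = 2 * C / Real.sqrt (J + 1) * n := by ring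
  rw [Real.dist_eq] at *
  rw [sub_zero] at hJ2
  have e7 : |RR h P n J / n| < ε / 3 := lt_of_le_of_lt e6 (lt_of_le_of_lt (le_abs_self _) hJ2)
  rw [abs_lt] at *
  constructor <;> linarith [e3.1, e3.2, e7.1, e7.2, hJ1.1, hJ1.2]

end Pool.Agent.H96.KMF
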