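import Pool.Agent.H96.KMF.Main1

/-!
# Quantitative version of the limit theorem for `k`-multiple-free sets
-/

set_option autoImplicit false

namespace Pool.Agent.H96.KMF

open Finset Filter Topology

/-- the product of the primes below `M`. -/
def PP (M : ℕ) : ℕ := ∏ p ∈ Nat.primesBelow M, p

lemma PP_pos (M : ℕ) : 0 < PP M :=
  Finset.prod_pos fun _ hp => (Nat.prime_of_mem_primesBelow hp).pos

lemma dvd_PP {M p : ℕ} (hp : p.Prime) (h : p < M) : p ∣ PP M :=
  Finset.dvd_prod_of_mem _ (Nat.mem_primesBelow.mpr ⟨h, hp⟩)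

lemma lt_of_dvd_PP {M p : ℕ} (hp : p.Prime) (h : p ∣ PP M) : p < M := by
  unfold PP at h
  obtain ⟨q, hq, hd⟩ := (Prime.dvd_finsetProd_iff hp.prime _).mp h
  rw [Nat.mem_primesBelow] at hq
  rw [(Nat.prime_dvd_prime_iff_eq hp hq.2).mp hd]
  exact hq.1

lemma PP_le (M : ℕ) : PP M ≤ 4 ^ M := by
  have h1 : PP M ≤ primorial M := by
    unfold PP primorial
    apply Finset.prod_le_prod_of_subset_of_one_le'
    · intro p hp
      rw [Nat.mem_primesBelow] at hp
      rw [Finset.mem_filter, Finset.mem_range]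
      exact ⟨by omega, hp.2⟩
    · intro p hp _
      rw [Finset.mem_filter] at hp
      exact hp.2.one_lt.le
  exact h1.trans (primorial_le_four_pow M)

lemma totient_PP (M : ℕ) : (Nat.totient (PP M) : ℝ) / (PP M : ℝ) =
    ∏ p ∈ Nat.primesBelow M, (1 - 1 / (p : ℝ)) := by
  have h1 := Nat.totient_eq_mul_prod_factors (PP M)
  have h2 : (PP M).primeFactors = Nat.primesBelow M := by
    unfold PP
    exact Nat.primeFactors_prod fun p hp => Nat.prime_of_mem_primesBelow hp
  rw [h2] at h1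
  have h3 : (Nat.totient (PP M) : ℝ) = (PP M : ℝ) * ∏ p ∈ Nat.primesBelow M, (1 - 1 / (p : ℝ)) := by
    have := congrArg (fun x : ℚ => (x : ℝ)) h1
    push_cast at this
    rw [this]
    simp
  have hP : (PP M : ℝ) ≠ 0 := by exact_mod_cast (PP_pos M).ne'
  rw [h3, mul_div_cancel_left₀ _ hP]

/-- the smooth numbers `s` with `j / M < s ≤ j`, in Mathlib terms. -/
def scell (M j : ℕ) : Finset ℕ := (Nat.smoothNumbersUpTo j M).filter (fun s => j < s * M)

lemma cell_PP (M j : ℕ) : cell (PP M) M j = scell M j := by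
  ext s
  rw [mem_cell, scell, Finset.mem_filter, Nat.mem_smoothNumbersUpTo, Nat.mem_smoothNumbers']
  constructor
  · rintro ⟨⟨h1, h2⟩, h3, h4⟩
    exact ⟨⟨h2, fun p hp hd => lt_of_dvd_PP hp (h3.2 p hp hd)⟩, h4⟩
  · rintro ⟨⟨h1, h2⟩, h3⟩
    have hs : s ≠ 0 := by rintro rfl; simp at h3
    exact ⟨⟨Nat.pos_of_ne_zero hs, h1⟩, ⟨hs, fun p hp hd => dvd_PP hp (h2 p hp hd)⟩, h3⟩

lemma opt_scell_le (k M j : ℕ) :
    (opt k (scell M j) : ℝ) ≤ 2 ^ M * Real.sqrt j := by
  have h1 : (opt k (scell M j)) ≤ 2 ^ (Nat.primesBelow M).card * Nat.sqrt j := by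
    refine (opt_le_card k _).trans ?_
    refine (Finset.card_le_card (Finset.filter_subset _ _)).trans ?_
    exact Nat.smoothNumbersUpTo_card_le j M
  have h2 : (Nat.primesBelow M).card ≤ M := by
    unfold Nat.primesBelow
    refine (Finset.card_filter_le _ _).trans ?_
    simp
  calc (opt k (scell M j) : ℝ) ≤ ((2 ^ (Nat.primesBelow M).card * Nat.sqrt j : ℕ) : ℝ) := by
        exact_mod_cast h1
    _ = 2 ^ (Nat.primesBelow M).card * (Nat.sqrt j : ℝ) := by push_cast; ring
    _ ≤ 2 ^ M * Real.sqrt j := by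
        apply mul_le_mul
        · exact pow_le_pow_right₀ (by norm_num) h2
        · exact Real.nat_sqrt_le_real_sqrt
        · positivity
        · positivity

/-- the finite approximations. -/
noncomputable def SS (k M J : ℕ) : ℝ :=
  (∏ p ∈ Nat.primesBelow M, (1 - 1 / (p : ℝ))) *
    ∑ j ∈ Finset.Icc 1 J, (opt k (scell M j) : ℝ) / (j * (j + 1))

lemma tail_step (j : ℕ) (hj : 1 ≤ j) :
    Real.sqrt j / (j * (j + 1)) ≤ 2 / Real.sqrt j - 2 / Real.sqrt (j + 1) := by
  have hjr : (0 : ℝ) < j := by exact_mod_cast hj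
  set a := Real.sqrt j with ha
  set b := Real.sqrt ((j : ℝ) + 1) with hb
  have ha2 : a ^ 2 = j := Real.sq_sqrt hjr.le
  have hb2 : b ^ 2 = j + 1 := Real.sq_sqrt (by positivity)
  have ha0 : 0 < a := Real.sqrt_pos.mpr hjr
  have hb0 : 0 < b := Real.sqrt_pos.mpr (by positivity)
  have hab : a ≤ b := Real.sqrt_le_sqrt (by linarith)
  rw [← ha2, show a ^ 2 + 1 = b ^ 2 by rw [ha2, hb2]]
  rw [show a / (a ^ 2 * b ^ 2) = 1 / (a * b ^ 2) by field_simp]
  rw [show 2 / a - 2 / b = 2 * (b - a) / (a * b) by field_simp]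
  rw [div_le_div_iff₀ (by positivity) (by positivity)]
  have h1 : (b - a) * (b + a) = 1 := by nlinarith
  have h2 : 1 ≤ 2 * (b - a) * b := by nlinarith
  calc 1 * (a * b) = a * b * 1 := by ring
    _ ≤ a * b * (2 * (b - a) * b) := by
        apply mul_le_mul_of_nonneg_left h2 (by positivity)
    _ = 2 * (b - a) * (a * b ^ 2) := by ring

lemma tail_sum (h : ℕ → ℝ) (C : ℝ) (hC : 0 ≤ C) (h0 : ∀ j, 0 ≤ h j)
    (h1 : ∀ j : ℕ, h j ≤ C * Real.sqrt j) (J : ℕ) :
    ∑ j ∈ Finset.Icc 1 J, h j / (j * (j + 1)) ≤ ∑' j : ℕ, h j / (j * (j + 1)) ∧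
    ∑' j : ℕ, h j / (j * (j + 1)) ≤ ∑ j ∈ Finset.Icc 1 J, h j / (j * (j + 1)) +
      2 * C / Real.sqrt (J + 1) := by
  have hs := summable_series h C h0 h1
  have hnn : ∀ j : ℕ, 0 ≤ h j / (j * (j + 1)) := fun j => by
    have := h0 j; positivity
  constructor
  · exact hs.sum_le_tsum _ (fun j _ => hnn j)
  · have hfin : ∀ K : ℕ, J ≤ K → ∑ j ∈ Finset.Icc 1 K, h j / (j * (j + 1)) ≤
        ∑ j ∈ Finset.Icc 1 J, h j / (j * (j + 1)) +
          C * (2 / Real.sqrt (J + 1) - 2 / Real.sqrt (K + 1)) := by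
      intro K hK
      induction K, hK using Nat.le_induction with
      | base => simp
      | succ K hK ih =>
        rw [Finset.sum_Icc_succ_top (by omega)]
        have e1 : h (K + 1) / ((K + 1 : ℕ) * ((K + 1 : ℕ) + 1)) ≤
            C * (2 / Real.sqrt (K + 1) - 2 / Real.sqrt ((K + 1 : ℕ) + 1)) := by
          have e2 := tail_step (K + 1) (by omega)
          calc h (K + 1) / ((K + 1 : ℕ) * ((K + 1 : ℕ) + 1)) ≤
                (C * Real.sqrt ((K + 1 : ℕ) : ℝ)) / ((K + 1 : ℕ) * ((K + 1 : ℕ) + 1)) := by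
                apply div_le_div_of_nonneg_right (h1 _) (by positivity)
            _ = C * (Real.sqrt ((K + 1 : ℕ) : ℝ) / ((K + 1 : ℕ) * ((K + 1 : ℕ) + 1))) := by ring
            _ ≤ C * (2 / Real.sqrt ((K + 1 : ℕ) : ℝ) - 2 / Real.sqrt (((K + 1 : ℕ) : ℝ) + 1)) :=
                mul_le_mul_of_nonneg_left e2 hC
            _ = _ := by push_cast; ring
        push_cast at e1 ⊢
        linarith
    refine le_of_tendsto' hs.hasSum.tendsto_sum_nat (fun K => ?_)
    have e3 : ∑ j ∈ Finset.range K, h j / ((j : ℝ) * (j + 1)) ≤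
        ∑ j ∈ Finset.Icc 1 (max J K), h j / (j * (j + 1)) := by
      have : ∑ j ∈ Finset.range K, h j / ((j : ℝ) * (j + 1)) =
          ∑ j ∈ (Finset.range K).erase 0, h j / ((j : ℝ) * (j + 1)) := by
        by_cases h0K : 0 ∈ Finset.range K
        · rw [← Finset.sum_erase_add _ _ h0K]; simp
        · rw [Finset.erase_eq_of_notMem h0K]
      rw [this]
      apply Finset.sum_le_sum_of_subset_of_nonneg
      · intro j hj
        rw [Finset.mem_erase, Finset.mem_range] at hj
        rw [Finset.mem_Icc]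
        have := le_max_right J K
        omega
      · intro j _ _; exact hnn j
    refine e3.trans ((hfin _ (le_max_left J K)).trans ?_)
    have e4 : 0 ≤ C * (2 / Real.sqrt (((max J K : ℕ) : ℝ) + 1)) := by positivity
    rw [mul_sub]
    rw [show 2 * C / Real.sqrt ((J : ℝ) + 1) = C * (2 / Real.sqrt ((J : ℝ) + 1)) by ring]
    linarith

lemma kap_SS (k M J : ℕ) :
    SS k M J ≤ kap k (PP M) M ∧ kap k (PP M) M ≤ SS k M J + 2 ^ (M + 1) / Real.sqrt (J + 1) := by
  have h := tail_sum (fun j => (opt k (scell M j) : ℝ)) (2 ^ M) (by positivity)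
    (fun j => by positivity) (opt_scell_le k M) J
  unfold kap SS
  simp_rw [cell_PP, totient_PP]
  have hρ0 : 0 ≤ ∏ p ∈ Nat.primesBelow M, (1 - 1 / (p : ℝ)) := by
    rw [← totient_PP]; positivity
  have hρ1 : ∏ p ∈ Nat.primesBelow M, (1 - 1 / (p : ℝ)) ≤ 1 := by
    rw [← totient_PP, div_le_one (by exact_mod_cast PP_pos M)]
    exact_mod_cast Nat.totient_le _
  constructor
  · exact mul_le_mul_of_nonneg_left h.1 hρ0
  · refine (mul_le_mul_of_nonneg_left h.2 hρ0).trans ?_
    rw [mul_add]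
    have h3 : (∏ p ∈ Nat.primesBelow M, (1 - 1 / (p : ℝ))) *
        (2 * 2 ^ M / Real.sqrt (J + 1)) ≤ 1 * (2 * 2 ^ M / Real.sqrt (J + 1)) :=
      mul_le_mul_of_nonneg_right hρ1 (by positivity)
    have h4 : (2 : ℝ) ^ (M + 1) = 2 * 2 ^ M := by ring
    rw [h4]
    linarith

/-- quantitative convergence of the sums over rough numbers. -/
lemma quant_sum (h : ℕ → ℝ) (C : ℝ) (hC : 0 ≤ C) (h0 : ∀ j, 0 ≤ h j)
    (h1 : ∀ j : ℕ, h j ≤ C * Real.sqrt j) (P : ℕ) (hP : 0 < P) (n J : ℕ) (hn : 0 < n) :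
    |(∑ m ∈ rgh P n, h (n / m)) / n -
      (Nat.totient P : ℝ) / P * ∑' j : ℕ, h j / (j * (j + 1))| ≤
      4 * C / Real.sqrt (J + 1) + 4 * P * C * J * Real.sqrt J / n := by
  have hnr : (0 : ℝ) < n := by exact_mod_cast hn
  have hPr : (0 : ℝ) < P := by exact_mod_cast hP
  have hP1 : (1 : ℝ) ≤ P := by exact_mod_cast hP
  set ρ : ℝ := (Nat.totient P : ℝ) / P with hρ
  have hρ0 : 0 ≤ ρ := by rw [hρ]; positivity
  have hρ1 : ρ ≤ 1 := by
    rw [hρ, div_le_one hPr]; exact_mod_cast Nat.totient_le P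
  have e4 : (∑ m ∈ rgh P n, h (n / m)) = RR h P n 0 := by
    unfold RR; simp
  have e5 := RR_bound h C hC h0 h1 P n J
  have hfl : ∀ j : ℕ, 0 < j → |(cnt P (n / j) : ℝ) - ρ * (n / j)| ≤ P + 1 := by
    intro j hj
    have hjr : (0 : ℝ) < j := by exact_mod_cast hj
    have a1 := cnt_approx P (n / j) hP
    rw [← hρ] at a1
    have a2 : ((n / j : ℕ) : ℝ) ≤ n / j := Nat.cast_div_le
    have a3 : (n : ℝ) / j ≤ ((n / j : ℕ) : ℝ) + 1 := by
      rw [div_le_iff₀ hjr]
      have := Nat.lt_div_mul_add (a := n) hj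
      have h2 : (n : ℝ) < ((n / j : ℕ) : ℝ) * j + j := by exact_mod_cast this
      nlinarith
    have a4 : ρ * ((n / j : ℕ) : ℝ) ≤ ρ * (n / j) := mul_le_mul_of_nonneg_left a2 hρ0
    have a5 : ρ * (n / j) ≤ ρ * ((n / j : ℕ) : ℝ) + 1 := by nlinarith
    rw [abs_le] at *
    constructor <;> linarith [a1.1, a1.2]
  -- the partial sum
  have e6 : |(∑ j ∈ Finset.range J, h (j + 1) * ((cnt P (n / (j + 1)) : ℝ) - cnt P (n / (j + 2)))) -
      ρ * n * ∑ j ∈ Finset.Icc 1 J, h j / (j * (j + 1))| ≤ 4 * P * C * J * Real.sqrt J := by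
    have r1 : ∑ j ∈ Finset.Icc 1 J, h j / ((j : ℝ) * (j + 1)) =
        ∑ j ∈ Finset.range J, h (j + 1) / (((j + 1 : ℕ) : ℝ) * (((j + 1 : ℕ) : ℝ) + 1)) := by
      rw [Finset.range_eq_Ico, Finset.sum_Ico_add' (fun j => h j / ((j : ℝ) * (j + 1))) 0 J 1]
      rfl
    rw [r1, Finset.mul_sum, ← Finset.sum_sub_distrib]
    refine (Finset.abs_sum_le_sum_abs _ _).trans ?_
    have r2 : ∀ j ∈ Finset.range J, |h (j + 1) * ((cnt P (n / (j + 1)) : ℝ) - cnt P (n / (j + 2))) -
        ρ * n * (h (j + 1) / (((j + 1 : ℕ) : ℝ) * (((j + 1 : ℕ) : ℝ) + 1)))| ≤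
        4 * P * C * Real.sqrt J := by
      intro j hj
      rw [Finset.mem_range] at hj
      have b1 := hfl (j + 1) (by omega)
      have b2 := hfl (j + 2) (by omega)
      have b3 : h (j + 1) * ((cnt P (n / (j + 1)) : ℝ) - cnt P (n / (j + 2))) -
        ρ * n * (h (j + 1) / (((j + 1 : ℕ) : ℝ) * (((j + 1 : ℕ) : ℝ) + 1))) =
        h (j + 1) * (((cnt P (n / (j + 1)) : ℝ) - ρ * (n / ((j + 1 : ℕ) : ℝ))) -
          ((cnt P (n / (j + 2)) : ℝ) - ρ * (n / ((j + 2 : ℕ) : ℝ)))) := by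
        push_cast
        field_simp
        ring
      rw [b3, abs_mul, abs_of_nonneg (h0 _)]
      have b4 : h (j + 1) ≤ C * Real.sqrt J := by
        refine (h1 _).trans (mul_le_mul_of_nonneg_left (Real.sqrt_le_sqrt ?_) hC)
        exact_mod_cast hj
      have b5 : |((cnt P (n / (j + 1)) : ℝ) - ρ * (n / ((j + 1 : ℕ) : ℝ))) -
          ((cnt P (n / (j + 2)) : ℝ) - ρ * (n / ((j + 2 : ℕ) : ℝ)))| ≤ 4 * P := by
        rw [abs_le] at *
        constructor <;> linarith [b1.1, b1.2, b2.1, b2.2]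
      calc h (j + 1) * |_| ≤ (C * Real.sqrt J) * (4 * P) :=
            mul_le_mul b4 b5 (abs_nonneg _) (by positivity)
        _ = _ := by ring
    refine (Finset.sum_le_sum r2).trans ?_
    rw [Finset.sum_const, Finset.card_range, nsmul_eq_mul]
    exact le_of_eq (by ring)
  have e7 := tail_sum h C hC h0 h1 J
  have e8 : RR h P n 0 = RR h P n J + ∑ j ∈ Finset.range J,
      h (j + 1) * ((cnt P (n / (j + 1)) : ℝ) - cnt P (n / (j + 2))) := RR_zero h P n J
  set T := ∑' j : ℕ, h j / ((j : ℝ) * (j + 1)) with hT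
  set U := ∑ j ∈ Finset.Icc 1 J, h j / ((j : ℝ) * (j + 1)) with hU
  set W := ∑ j ∈ Finset.range J,
      h (j + 1) * ((cnt P (n / (j + 1)) : ℝ) - cnt P (n / (j + 2))) with hW
  have e9 : |(∑ m ∈ rgh P n, h (n / m)) - ρ * T * n| ≤
      4 * C / Real.sqrt (J + 1) * n + 4 * P * C * J * Real.sqrt J := by
    rw [e4, e8]
    have c1 : |ρ * T * n - ρ * n * U| ≤ 2 * C / Real.sqrt (J + 1) * n := by
      have : ρ * T * n - ρ * n * U = ρ * (T - U) * n := by ring
      rw [this, abs_mul, abs_mul, abs_of_nonneg hρ0, abs_of_pos hnr]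
      apply mul_le_mul_of_nonneg_right _ hnr.le
      have c2 : |T - U| ≤ 2 * C / Real.sqrt (J + 1) := by
        rw [abs_le]
        have : 0 ≤ 2 * C / Real.sqrt ((J : ℝ) + 1) := by positivity
        constructor <;> linarith [e7.1, e7.2]
      calc ρ * |T - U| ≤ 1 * (2 * C / Real.sqrt (J + 1)) :=
            mul_le_mul hρ1 c2 (abs_nonneg _) (by norm_num)
        _ = _ := one_mul _
    have c3 : 2 * C * n / Real.sqrt ((J : ℝ) + 1) = 2 * C / Real.sqrt ((J : ℝ) + 1) * n := by ring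
    have c4 : 4 * C / Real.sqrt ((J : ℝ) + 1) * n = 2 * C / Real.sqrt ((J : ℝ) + 1) * n +
      2 * C / Real.sqrt ((J : ℝ) + 1) * n := by ring
    rw [c3] at e5
    rw [c4]
    rw [abs_le] at *
    constructor <;> linarith [e5.1, e5.2, e6.1, e6.2, c1.1, c1.2]
  have e10 : (∑ m ∈ rgh P n, h (n / m)) / n - ρ * T =
      ((∑ m ∈ rgh P n, h (n / m)) - ρ * T * n) / n := by
    field_simp
  rw [e10, abs_div, abs_of_pos hnr, div_le_iff₀ hnr]
  refine e9.trans (le_of_eq ?_)
  field_simp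

/-- Quantitative limit theorem. -/
theorem exists_limit_quant (k : ℕ) :
    ∃ c : ℝ, (∀ n : ℕ, 2 ≤ n → |(gk k n : ℝ) - c * n| ≤ 100 * n / Real.log n) ∧
      ∀ M J : ℕ, 1 ≤ M → SS k M J ≤ c ∧
        c ≤ SS k M J + 1 / M + 2 ^ (M + 1) / Real.sqrt (J + 1) := by
  obtain ⟨c, hc, hb⟩ := exists_limit k
  have hg1 : ∀ n : ℕ, (gk k n : ℝ) ≤ n := by
    intro n
    have : gk k n ≤ (Finset.Icc 1 n).card := by
      rw [gk_eq_opt]; exact opt_le_card k _
    rw [Nat.card_Icc, Nat.add_sub_cancel] at this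
    exact_mod_cast this
  have hc0 : 0 ≤ c := ge_of_tendsto' hc fun n => by positivity
  have hc1 : c ≤ 1 := le_of_tendsto' hc fun n => by
    rcases Nat.eq_zero_or_pos n with rfl | hn
    · simp
    · have hnr : (0 : ℝ) < n := by exact_mod_cast hn
      rw [div_le_one hnr]; exact hg1 n
  refine ⟨c, ?_, ?_⟩
  · intro n hn
    have hnr : (0 : ℝ) < n := by exact_mod_cast (by omega : 0 < n)
    have hlog : 0 < Real.log n := Real.log_pos (by exact_mod_cast hn)
    set L := Real.log n with hL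
    rcases le_or_gt L 100 with hsmall | hbig
    · rw [le_div_iff₀ hlog]
      have h1 : |(gk k n : ℝ) - c * n| ≤ n := by
        have := hg1 n
        have h2 : c * n ≤ n := by nlinarith
        have h3 : 0 ≤ c * n := by positivity
        have h4 : (0 : ℝ) ≤ gk k n := by positivity
        rw [abs_le]; constructor <;> linarith
      nlinarith [abs_nonneg ((gk k n : ℝ) - c * n)]
    · set M := ⌊L / 20⌋₊ with hM
      have hM1 : (M : ℝ) ≤ L / 20 := Nat.floor_le (by positivity)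
      have hM2 : L / 20 - 1 < M := by
        have := Nat.lt_floor_add_one (L / 20); rw [← hM] at this; linarith
      have hM3 : L / 25 ≤ M := by linarith
      have hMpos : (0 : ℝ) < M := by linarith [div_pos hlog (by norm_num : (0 : ℝ) < 25)]
      have hM1' : 1 ≤ M := by exact_mod_cast hMpos
      set J := Nat.sqrt n with hJ
      have hexp : Real.exp L = n := Real.exp_log hnr
      have hq : Real.exp (L / 4) ^ 4 = n := by
        rw [← Real.exp_nat_mul, ← hexp]; congr 1; push_cast; ring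
      have hJ1 : (n : ℝ) < ((J : ℝ) + 1) ^ 2 := by
        have := Nat.lt_succ_sqrt n
        have h2 : n < (Nat.sqrt n + 1) * (Nat.sqrt n + 1) := this
        rw [← hJ] at h2
        have h3 : (n : ℝ) < ((J : ℝ) + 1) * ((J : ℝ) + 1) := by exact_mod_cast h2
        rw [sq]; exact h3
      have hJ2 : (J : ℝ) ^ 2 ≤ n := by
        have := Nat.sqrt_le n
        rw [sq, hJ]; exact_mod_cast this
      have hs1 : Real.exp (L / 4) ≤ Real.sqrt (J + 1) := by
        by_contra hcon
        push Not at hcon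
        have h4 : Real.sqrt ((J : ℝ) + 1) ^ 4 < Real.exp (L / 4) ^ 4 :=
          pow_lt_pow_left₀ hcon (Real.sqrt_nonneg _) (by norm_num)
        have h5 : Real.sqrt ((J : ℝ) + 1) ^ 4 = ((J : ℝ) + 1) ^ 2 := by
          rw [show (4 : ℕ) = 2 * 2 by norm_num, pow_mul, Real.sq_sqrt (by positivity)]
        rw [hq, h5] at h4
        linarith
      have hs2 : (J : ℝ) ≤ Real.exp (L / 4) ^ 2 := by
        have h6 : (Real.exp (L / 4) ^ 2) ^ 2 = n := by rw [← pow_mul]; exact hq
        by_contra hcon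
        push Not at hcon
        have := pow_lt_pow_left₀ hcon (by positivity) (two_ne_zero)
        rw [h6] at this
        linarith
      have hs3 : Real.sqrt J ≤ Real.exp (L / 4) := by
        rw [Real.sqrt_le_left (Real.exp_pos _).le]
        exact hs2
      have hPM : ∀ p, p.Prime → p < M → p ∣ PP M := fun p hp h => dvd_PP hp h
      have b1 := gk_bounds k (PP M) M n hM1' hPM
      have b2 := hb (PP M) M (PP_pos M) hM1' hPM
      have b3 := quant_sum (fun j => (opt k (cell (PP M) M j) : ℝ)) (2 ^ M) (by positivity)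
        (fun j => by positivity) (fun j => by
          have := opt_scell_le k M j
          rw [cell_PP]; exact this) (PP M) (PP_pos M) n J (by omega)
      have b4 : (∑ m ∈ rgh (PP M) n, (opt k (cell (PP M) M (n / m)) : ℝ)) = GG k (PP M) M n := by
        unfold GG; push_cast; rfl
      rw [b4] at b3
      have b5 : (Nat.totient (PP M) : ℝ) / (PP M : ℕ) *
          ∑' j : ℕ, (opt k (cell (PP M) M j) : ℝ) / (j * (j + 1)) = kap k (PP M) M := rfl
      rw [b5] at b3
      -- bound the error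
      set x := Real.exp (L / 4) with hx
      have hx0 : 0 < x := Real.exp_pos _
      have hP4 : ((PP M : ℕ) : ℝ) ≤ 4 ^ M := by exact_mod_cast PP_le M
      have h8 : (8 : ℝ) ^ M ≤ Real.exp (L * (104 / 1000)) := by
        have : (8 : ℝ) ^ M = Real.exp (M * Real.log 8) := by
          rw [Real.exp_nat_mul, Real.exp_log (by norm_num)]
        rw [this]
        apply Real.exp_le_exp.mpr
        have hl8 : Real.log 8 ≤ 2.08 := by
          rw [show (8 : ℝ) = 2 ^ 3 by norm_num, Real.log_pow]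
          have := Real.log_two_lt_d9
          push_cast; linarith
        have hl80 : 0 ≤ Real.log 8 := Real.log_nonneg (by norm_num)
        calc (M : ℝ) * Real.log 8 ≤ (L / 20) * 2.08 := mul_le_mul hM1 hl8 hl80 (by positivity)
          _ = L * (104 / 1000) := by ring
      have e1 : 4 * (2 : ℝ) ^ M / Real.sqrt (J + 1) ≤ 4 * 8 ^ M / x := by
        apply div_le_div₀ (by positivity) _ hx0 hs1
        have : (2 : ℝ) ^ M ≤ 8 ^ M := pow_le_pow_left₀ (by norm_num) (by norm_num) _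
        linarith
      have e2 : 4 * (PP M : ℝ) * 2 ^ M * J * Real.sqrt J / n ≤ 4 * 8 ^ M / x := by
        rw [← hq, div_le_div_iff₀ (by positivity) hx0]
        have f1 : 4 * (PP M : ℝ) * 2 ^ M * J * Real.sqrt J ≤ 4 * 4 ^ M * 2 ^ M * x ^ 2 * x := by
          gcongr
        calc 4 * (PP M : ℝ) * 2 ^ M * J * Real.sqrt J * x ≤
              4 * 4 ^ M * 2 ^ M * x ^ 2 * x * x := mul_le_mul_of_nonneg_right f1 hx0.le
          _ = 4 * (4 * 2) ^ M * x ^ 4 := by rw [mul_pow]; ring
          _ = 4 * 8 ^ M * x ^ 4 := by norm_num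
      have e3 : 4 * (8 : ℝ) ^ M / x ≤ 4 * Real.exp (-(L * (146 / 1000))) := by
        rw [div_le_iff₀ hx0]
        calc 4 * (8 : ℝ) ^ M ≤ 4 * Real.exp (L * (104 / 1000)) := by linarith
          _ = 4 * (Real.exp (-(L * (146 / 1000))) * x) := by
              rw [hx, ← Real.exp_add]; congr 2; ring
          _ = _ := by ring
      have e4 : Real.exp (-(L * (146 / 1000))) ≤ 1000 / (146 * L) := by
        rw [Real.exp_neg, inv_eq_one_div, div_le_div_iff₀ (Real.exp_pos _) (by positivity)]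
        have := Real.add_one_le_exp (L * (146 / 1000))
        linarith
      have e5 : 1 / (M : ℝ) ≤ 25 / L := by
        rw [div_le_div_iff₀ hMpos hlog]; linarith
      have e6 : 8 * (1000 / (146 * L)) ≤ 55 / L := by
        rw [mul_div_assoc', div_le_div_iff₀ (by positivity) hlog]
        nlinarith
      have e7 : |(GG k (PP M) M n : ℝ) / n - kap k (PP M) M| ≤ 55 / L := by
        refine b3.trans ?_
        linarith
      have e8 : |(gk k n : ℝ) / n - c| ≤ 80 / L := by
        have : 80 / L = 55 / L + 25 / L := by ring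
        rw [abs_le] at e7 ⊢
        constructor <;> linarith [e7.1, e7.2, b1.1, b1.2, b2.1, b2.2]
      have e9 : (gk k n : ℝ) - c * n = ((gk k n : ℝ) / n - c) * n := by
        field_simp
      rw [e9, abs_mul, abs_of_pos hnr]
      calc |(gk k n : ℝ) / n - c| * n ≤ 80 / L * n := mul_le_mul_of_nonneg_right e8 hnr.le
        _ = 80 * n / L := by ring
        _ ≤ 100 * n / L := by
            apply div_le_div_of_nonneg_right _ hlog.le
            linarith
  · intro M J hM
    have b2 := hb (PP M) M (PP_pos M) hM (fun p hp h => dvd_PP hp h)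
    have b3 := kap_SS k M J
    constructor
    · exact b3.1.trans b2.1
    · linarith [b2.2, b3.2]

end Pool.Agent.H96.KMF
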