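import Pool.Agent.H96.KMF.Main1

/-!
# Upper bounds for `g_k(n)` from integers with many divisors
-/

set_option autoImplicit false

namespace Pool.Agent.H96.KMF

open Finset Filter Topology

lemma gk_add_cnt_le (k N n : ℕ) (hN : 1 ≤ N) (hτ : k < N.divisors.card) :
    gk k n + cnt N (n / N) ≤ n := by
  classical
  obtain ⟨A, hA, hAf, hAc⟩ := exists_opt k (Finset.Icc 1 n)
  have hex : ∀ m ∈ rgh N (n / N), ∃ d ∈ N.divisors, m * d ∉ A := by
    intro m hm
    by_contra hcon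
    push Not at hcon
    rw [mem_rgh] at hm
    have h1 := (kmf_iff k A).mp hAf (m * N) (hcon N (Nat.mem_divisors_self N (by omega)))
    have h2 : (N.divisors.erase N).image (fun d => m * d) ⊆
        A.filter (fun b => b ∣ m * N ∧ b ≠ m * N) := by
      intro b hb
      rw [Finset.mem_image] at hb
      obtain ⟨d, hd, rfl⟩ := hb
      rw [Finset.mem_erase] at hd
      rw [Finset.mem_filter]
      refine ⟨hcon d hd.2, Nat.mul_dvd_mul_left m (Nat.dvd_of_mem_divisors hd.2), ?_⟩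
      intro h
      exact hd.1 (Nat.eq_of_mul_eq_mul_left (by omega) h)
    have h3 := Finset.card_le_card h2
    rw [Finset.card_image_of_injective _ (fun a b h => Nat.eq_of_mul_eq_mul_left (by omega) h),
      Finset.card_erase_of_mem (Nat.mem_divisors_self N (by omega))] at h3
    omega
  choose! d hd hdA using hex
  have hinj : Set.InjOn (fun m => m * d m) (rgh N (n / N) : Set ℕ) := by
    intro m hm m' hm' h
    rw [Finset.mem_coe] at hm hm'
    have e1 := mem_rgh.mp hm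
    have e2 := mem_rgh.mp hm'
    have s1 : Smo N (d m) := by
      have := Nat.mem_divisors.mp (hd m hm)
      refine ⟨fun h0 => ?_, fun p _ hp => hp.trans this.1⟩
      rw [h0] at this
      exact this.2 (Nat.eq_zero_of_zero_dvd this.1)
    have s2 : Smo N (d m') := by
      have := Nat.mem_divisors.mp (hd m' hm')
      refine ⟨fun h0 => ?_, fun p _ hp => hp.trans this.1⟩
      rw [h0] at this
      exact this.2 (Nat.eq_zero_of_zero_dvd this.1)
    exact (decomp_unique e1.2 e2.2 s1 s2 h).1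
  have hsub : (rgh N (n / N)).image (fun m => m * d m) ⊆ Finset.Icc 1 n \ A := by
    intro b hb
    rw [Finset.mem_image] at hb
    obtain ⟨m, hm, rfl⟩ := hb
    have e1 := mem_rgh.mp hm
    have e2 := Nat.mem_divisors.mp (hd m hm)
    rw [Finset.mem_sdiff, Finset.mem_Icc]
    refine ⟨⟨Nat.mul_pos (by omega) (Nat.pos_of_dvd_of_pos e2.1 (by omega)), ?_⟩, hdA m hm⟩
    calc m * d m ≤ (n / N) * N := Nat.mul_le_mul e1.1.2 (Nat.le_of_dvd (by omega) e2.1)
      _ ≤ n := Nat.div_mul_le_self n N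
  have h4 := Finset.card_le_card hsub
  rw [Finset.card_image_of_injOn hinj, Finset.card_sdiff_of_subset hA, Nat.card_Icc] at h4
  rw [gk_eq_opt, ← hAc]
  have h5 := Finset.card_le_card hA
  rw [Nat.card_Icc] at h5
  unfold cnt
  omega

lemma limit_le (k N : ℕ) (hN : 1 ≤ N) (hτ : k < N.divisors.card) (c : ℝ)
    (hc : Tendsto (fun n : ℕ => (gk k n : ℝ) / n) atTop (𝓝 c)) :
    c + (Nat.totient N : ℝ) / N * (1 / N) ≤ 1 := by
  have h1 := hc.add (tendsto_cnt_div N N (by omega) (by omega))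
  refine le_of_tendsto' h1 fun n => ?_
  rcases Nat.eq_zero_or_pos n with rfl | hn
  · simp
  · have hnr : (0 : ℝ) < n := by exact_mod_cast hn
    rw [← add_div, div_le_one hnr]
    exact_mod_cast gk_add_cnt_le k N n hN hτ

lemma prod_primes_divisors (S : Finset ℕ) (hS : ∀ p ∈ S, p.Prime) :
    (∏ p ∈ S, p).divisors.card = 2 ^ S.card := by
  classical
  induction S using Finset.induction_on with
  | empty => simp
  | insert p S hp ih =>
    rw [Finset.prod_insert hp, Finset.card_insert_of_notMem hp]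
    have hpp := hS p (Finset.mem_insert_self _ _)
    have hcop : Nat.Coprime p (∏ q ∈ S, q) := by
      apply Nat.Coprime.prod_right
      intro q hq
      rw [Nat.coprime_primes hpp (hS q (Finset.mem_insert_of_mem hq))]
      rintro rfl
      exact hp hq
    rw [hcop.card_divisors_mul, ih (fun q hq => hS q (Finset.mem_insert_of_mem hq)),
      hpp.divisors, Finset.card_pair hpp.one_lt.ne, pow_succ, mul_comm]

lemma prod_primes_totient (S : Finset ℕ) (hS : ∀ p ∈ S, p.Prime) :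
    (Nat.totient (∏ p ∈ S, p) : ℝ) / ((∏ p ∈ S, p : ℕ) : ℝ) = ∏ p ∈ S, (1 - 1 / (p : ℝ)) := by
  have h1 := Nat.totient_eq_mul_prod_factors (∏ p ∈ S, p)
  rw [Nat.primeFactors_prod hS] at h1
  have h3 : (Nat.totient (∏ p ∈ S, p) : ℝ) =
      ((∏ p ∈ S, p : ℕ) : ℝ) * ∏ p ∈ S, (1 - 1 / (p : ℝ)) := by
    have := congrArg (fun x : ℚ => (x : ℝ)) h1
    push_cast at this
    rw [this]
    push_cast
    simp
  have hP : ((∏ p ∈ S, p : ℕ) : ℝ) ≠ 0 := by
    have : 0 < ∏ p ∈ S, p := Finset.prod_pos fun p hp => (hS p hp).pos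
    exact_mod_cast this.ne'
  rw [h3, mul_div_cancel_left₀ _ hP]

lemma prod_Icc_eq (X : ℕ) : ∏ m ∈ Finset.Icc 2 (X + 1), (1 - 1 / (m : ℝ)) = 1 / (X + 1) := by
  induction X with
  | zero => simp
  | succ X ih =>
    rw [Finset.prod_Icc_succ_top (by omega), ih]
    push_cast
    field_simp
    ring

lemma prod_lower (S : Finset ℕ) (X : ℕ) (hX : 1 ≤ X) (hS : ∀ p ∈ S, 2 ≤ p ∧ p ≤ X) :
    1 / (X : ℝ) ≤ ∏ p ∈ S, (1 - 1 / (p : ℝ)) := by
  classical
  obtain ⟨Y, rfl⟩ : ∃ Y, X = Y + 1 := ⟨X - 1, by omega⟩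
  have h1 := prod_Icc_eq Y
  have hsub : S ⊆ Finset.Icc 2 (Y + 1) := fun p hp => by
    rw [Finset.mem_Icc]; exact hS p hp
  have hf : ∀ m ∈ Finset.Icc 2 (Y + 1), 0 ≤ 1 - 1 / (m : ℝ) ∧ 1 - 1 / (m : ℝ) ≤ 1 := by
    intro m hm
    rw [Finset.mem_Icc] at hm
    have hm0 : (0 : ℝ) < m := by exact_mod_cast (by omega : 0 < m)
    have hm1 : (1 : ℝ) ≤ m := by exact_mod_cast (by omega : 1 ≤ m)
    have : 1 / (m : ℝ) ≤ 1 := by rw [div_le_one hm0]; exact hm1
    have : 0 ≤ 1 / (m : ℝ) := by positivity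
    constructor <;> linarith
  rw [← Finset.prod_sdiff hsub] at h1
  have h2 : ∏ x ∈ Finset.Icc 2 (Y + 1) \ S, (1 - 1 / (x : ℝ)) ≤ 1 :=
    Finset.prod_le_one (fun m hm => (hf m (Finset.mem_sdiff.mp hm).1).1)
      (fun m hm => (hf m (Finset.mem_sdiff.mp hm).1).2)
  have h3 : 0 ≤ ∏ p ∈ S, (1 - 1 / (p : ℝ)) :=
    Finset.prod_nonneg fun m hm => (hf m (hsub hm)).1
  push_cast
  rw [← h1]
  calc (∏ x ∈ Finset.Icc 2 (Y + 1) \ S, (1 - 1 / (x : ℝ))) * ∏ p ∈ S, (1 - 1 / (p : ℝ)) ≤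
        1 * ∏ p ∈ S, (1 - 1 / (p : ℝ)) := mul_le_mul_of_nonneg_right h2 h3
    _ = _ := one_mul _

/-- If there are `r` primes up to `X` and `2^r > k` then `1 - c_k ≥ X^{-(r+1)}`. -/
theorem one_sub_ge (k r X : ℕ) (hr : k < 2 ^ r) (hX : 1 ≤ X) (hπ : r ≤ Nat.primeCounting X)
    (c : ℝ) (hc : Tendsto (fun n : ℕ => (gk k n : ℝ) / n) atTop (𝓝 c)) :
    1 / (X : ℝ) ^ (r + 1) ≤ 1 - c := by
  have hcard : r ≤ (Nat.primesBelow (X + 1)).card := by
    rw [Nat.primesBelow_card_eq_primeCounting']; exact hπ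
  obtain ⟨S, hS, hSc⟩ := Finset.exists_subset_card_eq hcard
  have hSp : ∀ p ∈ S, p.Prime := fun p hp => Nat.prime_of_mem_primesBelow (hS hp)
  have hSX : ∀ p ∈ S, 2 ≤ p ∧ p ≤ X := fun p hp => by
    have := hS hp
    rw [Nat.mem_primesBelow] at this
    exact ⟨this.2.two_le, by omega⟩
  set N := ∏ p ∈ S, p with hN
  have hN1 : 1 ≤ N := Finset.prod_pos fun p hp => (hSp p hp).pos
  have h1 := limit_le k N hN1 (by rw [hN, prod_primes_divisors S hSp, hSc]; exact hr) c hc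
  rw [hN, prod_primes_totient S hSp, ← hN] at h1
  have h2 := prod_lower S X hX hSX
  have h3 : N ≤ X ^ r := by
    rw [hN, ← hSc]
    exact Finset.prod_le_pow_card _ _ _ fun p hp => (hSX p hp).2
  have hNr : (0 : ℝ) < N := by exact_mod_cast hN1
  have hXr : (0 : ℝ) < X := by exact_mod_cast hX
  have h4 : 1 / (X : ℝ) ^ r ≤ 1 / N := by
    apply one_div_le_one_div_of_le hNr
    exact_mod_cast h3
  have h5 : 1 / (X : ℝ) * (1 / (X : ℝ) ^ r) ≤ (∏ p ∈ S, (1 - 1 / (p : ℝ))) * (1 / N) :=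
    mul_le_mul h2 h4 (by positivity) ((by positivity : (0 : ℝ) ≤ 1 / X).trans h2)
  have h6 : 1 / (X : ℝ) * (1 / (X : ℝ) ^ r) = 1 / (X : ℝ) ^ (r + 1) := by
    rw [pow_succ]; field_simp
  rw [h6] at h5
  linarith

end Pool.Agent.H96.KMF
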